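import Pool.Agent.Lib.MP_d61ac0_an.Spec

/-!
# MP_d61ac0_an, BDRY: Parseval on the unit circle for bounded functions (helper69)
-/

set_option autoImplicit false

namespace Pool.Agent.MPd61

open scoped Real InnerProductSpace Topology
open MeasureTheory Filter

namespace Bdry

private theorem norm_pt (r θ : ℝ) (hr : 0 < r) : ‖(r : ℂ) * Complex.exp (θ * Complex.I)‖ = r := by
  rw [norm_mul, Complex.norm_exp_ofReal_mul_I, mul_one, Complex.norm_real, Real.norm_of_nonneg hr.le]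

private theorem cont (c : ℕ → ℂ) (f : ℂ → ℂ)
    (hf : ∀ z : ℂ, ‖z‖ < 1 → HasSum (fun n => c n * z ^ n) (f z)) (r : ℝ) (hr : 0 < r)
    (hr1 : r < 1) : Continuous fun θ : ℝ => f (r * Complex.exp (θ * Complex.I)) := by
  have h1 : (fun θ : ℝ => f (r * Complex.exp (θ * Complex.I))) =
      fun θ : ℝ => ∑' n, c n * (r * Complex.exp (θ * Complex.I)) ^ n := by
    funext θ
    exact (hf _ (by rw [norm_pt r θ hr]; exact hr1)).tsum_eq.symm
  rw [h1]
  have h2 : Summable fun n => ‖c n * (r : ℂ) ^ n‖ := by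
    have h3 := (hf (r : ℂ) (by rw [Complex.norm_real, Real.norm_of_nonneg hr.le]; exact hr1)).summable
    exact h3.norm
  refine continuous_tsum (fun n => by fun_prop) h2 ?_
  intro n θ
  rw [norm_mul, norm_mul, norm_pow, norm_pow, norm_pt r θ hr, Complex.norm_real,
    Real.norm_of_nonneg hr.le]

private theorem val_le (f g : ℂ → ℂ) (B : ℝ) (hB : 0 ≤ B)
    (hf : ∀ z : ℂ, ‖z‖ < 1 → ‖f z‖ ≤ B) (hg : ∀ z : ℂ, ‖z‖ < 1 → ‖g z‖ ≤ B)
    (r : ℝ) (hr : 0 < r) (hr1 : r < 1) :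
    ‖((2 * π : ℝ) : ℂ)⁻¹ * ∫ θ in (0 : ℝ)..(2 * π),
      starRingEnd ℂ (f (r * Complex.exp (θ * Complex.I))) *
        g (r * Complex.exp (θ * Complex.I))‖ ≤ B * B := by
  have h1 : ‖∫ θ in (0 : ℝ)..(2 * π),
      starRingEnd ℂ (f (r * Complex.exp (θ * Complex.I))) *
        g (r * Complex.exp (θ * Complex.I))‖ ≤ (B * B) * |2 * π - 0| := by
    refine intervalIntegral.norm_integral_le_of_norm_le_const fun θ _ => ?_
    rw [norm_mul, RCLike.norm_conj]
    have h2 : ‖(r : ℂ) * Complex.exp (θ * Complex.I)‖ < 1 := by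
      rw [norm_pt r θ hr]; exact hr1
    exact mul_le_mul (hf _ h2) (hg _ h2) (norm_nonneg _) hB
  rw [norm_mul, norm_inv, Complex.norm_real, Real.norm_of_nonneg (by positivity)]
  rw [sub_zero, abs_of_pos (by positivity)] at h1
  calc (2 * π)⁻¹ * _ ≤ (2 * π)⁻¹ * (B * B * (2 * π)) :=
        mul_le_mul_of_nonneg_left h1 (by positivity)
    _ = B * B := by field_simp

private theorem sq_sum (h1 : S_Pars) (c : ℕ → ℂ) (f : ℂ → ℂ) (B : ℝ) (hB : 0 ≤ B)
    (hf : ∀ z : ℂ, ‖z‖ < 1 → HasSum (fun n => c n * z ^ n) (f z))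
    (hfB : ∀ z : ℂ, ‖z‖ < 1 → ‖f z‖ ≤ B) : Summable fun n => ‖c n‖ ^ 2 := by
  refine summable_of_sum_le (c := B * B) (fun n => by positivity) fun s => ?_
  have h2 : ∀ r : ℝ, 0 < r → r < 1 → ∑ n ∈ s, ‖c n‖ ^ 2 * r ^ (2 * n) ≤ B * B := by
    intro r hr hr1
    have h3 := h1 c c f f hf hf r hr hr1
    have h4 := Complex.hasSum_re h3
    have h5 : ∀ n, (starRingEnd ℂ (c n) * c n * (r : ℂ) ^ (2 * n)).re = ‖c n‖ ^ 2 * r ^ (2 * n) := by
      intro n
      rw [Complex.conj_mul']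
      norm_cast
    simp only [h5] at h4
    refine (sum_le_hasSum s (fun n _ => by positivity) h4).trans ?_
    exact (Complex.re_le_norm _).trans (val_le f f B hB hfB hfB r hr hr1)
  have h3 : Tendsto (fun r : ℝ => ∑ n ∈ s, ‖c n‖ ^ 2 * r ^ (2 * n)) (𝓝[<] 1)
      (𝓝 (∑ n ∈ s, ‖c n‖ ^ 2)) := by
    have h4 : Continuous fun r : ℝ => ∑ n ∈ s, ‖c n‖ ^ 2 * r ^ (2 * n) := by fun_prop
    have h5 := (h4.tendsto 1).mono_left (nhdsWithin_le_nhds (s := Set.Iio (1 : ℝ)))
    simpa using h5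
  refine le_of_tendsto h3 ?_
  filter_upwards [Ioo_mem_nhdsLT (show (0 : ℝ) < 1 by norm_num)] with r hr
  exact h2 r hr.1 hr.2

end Bdry

open Bdry in
/-- **BDRY.** -/
theorem tBdry (h1 : S_Pars) : S_Bdry := by
  intro c d f g F G B hf hg hfB hgB hF hG
  have hB : 0 ≤ B := (norm_nonneg _).trans (hfB 0 (by simp))
  have hc := sq_sum h1 c f B hB hf hfB
  have hd := sq_sum h1 d g B hB hg hgB
  have hcd : Summable fun n => ‖c n‖ * ‖d n‖ := by
    refine Summable.of_nonneg_of_le (fun n => by positivity) (fun n => ?_) ((hc.add hd).div_const 2)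
    nlinarith [sq_nonneg (‖c n‖ - ‖d n‖)]
  have hcd' : Summable fun n => starRingEnd ℂ (c n) * d n := by
    refine Summable.of_norm ?_
    simpa only [norm_mul, RCLike.norm_conj] using hcd
  have hev : ∀ᶠ r : ℝ in 𝓝[<] 1, 0 < r ∧ r < 1 :=
    Ioo_mem_nhdsLT (show (0 : ℝ) < 1 by norm_num)
  have h2 : Tendsto (fun r : ℝ => ∑' n, starRingEnd ℂ (c n) * d n * (r : ℂ) ^ (2 * n)) (𝓝[<] 1)
      (𝓝 (∑' n, starRingEnd ℂ (c n) * d n)) := by
    refine tendsto_tsum_of_dominated_convergence hcd ?_ ?_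
    · intro n
      have h4 : Continuous fun r : ℝ => starRingEnd ℂ (c n) * d n * (r : ℂ) ^ (2 * n) := by fun_prop
      have h5 := (h4.tendsto 1).mono_left (nhdsWithin_le_nhds (s := Set.Iio (1 : ℝ)))
      simpa using h5
    · filter_upwards [hev] with r hr n
      rw [norm_mul, norm_mul, RCLike.norm_conj, norm_pow, Complex.norm_real,
        Real.norm_of_nonneg hr.1.le]
      exact mul_le_of_le_one_right (by positivity) (pow_le_one₀ hr.1.le hr.2.le)
  have h3 : Tendsto (fun r : ℝ => ((2 * π : ℝ) : ℂ)⁻¹ * ∫ θ in (0 : ℝ)..(2 * π),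
      starRingEnd ℂ (f (r * Complex.exp (θ * Complex.I))) *
        g (r * Complex.exp (θ * Complex.I))) (𝓝[<] 1)
      (𝓝 (((2 * π : ℝ) : ℂ)⁻¹ * ∫ θ in (0 : ℝ)..(2 * π), starRingEnd ℂ (F θ) * G θ)) := by
    refine Tendsto.const_mul _ ?_
    refine intervalIntegral.tendsto_integral_filter_of_dominated_convergence (fun _ => B * B)
      ?_ ?_ ?_ ?_
    · filter_upwards [hev] with r hr
      refine Continuous.aestronglyMeasurable ?_
      exact (Complex.continuous_conj.comp (cont c f hf r hr.1 hr.2)).mul (cont d g hg r hr.1 hr.2)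
    · filter_upwards [hev] with r hr
      refine Eventually.of_forall fun θ _ => ?_
      rw [norm_mul, RCLike.norm_conj]
      have h4 : ‖(r : ℂ) * Complex.exp (θ * Complex.I)‖ < 1 := by
        rw [norm_pt r θ hr.1]; exact hr.2
      exact mul_le_mul (hfB _ h4) (hgB _ h4) (norm_nonneg _) hB
    · exact intervalIntegrable_const
    · have h5 : ∀ᵐ θ : ℝ, θ ≠ π := by
        have := (Set.countable_singleton (π : ℝ)).ae_notMem (volume : Measure ℝ)
        filter_upwards [this] with x hx using hx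
      have h6 : ∀ᵐ θ : ℝ, θ ≠ 2 * π := by
        have := (Set.countable_singleton (2 * π : ℝ)).ae_notMem (volume : Measure ℝ)
        filter_upwards [this] with x hx using hx
      filter_upwards [h5, h6] with θ h7 h8 h9
      rw [Set.uIoc_of_le (by positivity)] at h9
      have h10 : θ < 2 * π := lt_of_le_of_ne h9.2 h8
      exact ((Complex.continuous_conj.tendsto _).comp (hF θ h9.1 h10 h7)).mul (hG θ h9.1 h10 h7)
  have h4 : (∑' n, starRingEnd ℂ (c n) * d n) =
      ((2 * π : ℝ) : ℂ)⁻¹ * ∫ θ in (0 : ℝ)..(2 * π), starRingEnd ℂ (F θ) * G θ := by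
    refine tendsto_nhds_unique h2 (h3.congr' ?_)
    filter_upwards [hev] with r hr
    exact (h1 c d f g hf hg r hr.1 hr.2).tsum_eq.symm
  rw [← h4]
  exact hcd'.hasSum

end Pool.Agent.MPd61
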