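import Pool.Agent.Lib.MP_d61ac0_an.Spec

/-!
# MP_d61ac0_an, BINT: the value of the boundary integral (helper69)
-/

set_option autoImplicit false

namespace Pool.Agent.MPd61

open scoped Real InnerProductSpace Topology
open MeasureTheory Filter

namespace Bint

/-- `log (cot (θ / 2))` -/
private noncomputable def X (θ : ℝ) : ℝ := Real.log (Real.cos (θ / 2) / Real.sin (θ / 2))

private noncomputable def P (γ δ θ : ℝ) : ℝ :=
  Real.cos ((γ - δ) * X θ) * Real.cosh (π * (γ + δ) / 2) -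
    Real.cos ((γ + δ) * X θ) * Real.cosh (π * (γ - δ) / 2)

private noncomputable def S (γ δ θ : ℝ) : ℝ :=
  Real.sin ((γ - δ) * X θ) * Real.sinh (π * (γ + δ) / 2) -
    Real.sin ((γ + δ) * X θ) * Real.sinh (π * (γ - δ) / 2)

private theorem X_meas : Measurable X := by
  unfold X
  fun_prop

private theorem ii (f : ℝ → ℝ) (hm : Measurable f) (M : ℝ) (hb : ∀ x, |f x| ≤ M) (a b : ℝ) :
    IntervalIntegrable f volume a b := by
  refine (intervalIntegrable_const (c := M)).mono_fun hm.aestronglyMeasurable ?_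
  refine Eventually.of_forall fun x => ?_
  exact (hb x).trans (le_abs_self M)

private theorem iof (f : ℝ → ℝ) (a b : ℝ) (h : IntervalIntegrable f volume a b) :
    IntervalIntegrable (fun x => ((f x : ℝ) : ℂ)) volume a b := ⟨h.1.ofReal, h.2.ofReal⟩

private theorem icos (A a b : ℝ) : IntervalIntegrable (fun θ => Real.cos (A * X θ)) volume a b :=
  ii _ (Real.measurable_cos.comp (X_meas.const_mul A)) 1 (fun _ => Real.abs_cos_le_one _) a b

private theorem isin (A a b : ℝ) : IntervalIntegrable (fun θ => Real.sin (A * X θ)) volume a b :=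
  ii _ (Real.measurable_sin.comp (X_meas.const_mul A)) 1 (fun _ => Real.abs_sin_le_one _) a b

private theorem iP (γ δ a b : ℝ) : IntervalIntegrable (P γ δ) volume a b :=
  ((icos _ a b).mul_const _).sub ((icos _ a b).mul_const _)

private theorem iS (γ δ a b : ℝ) : IntervalIntegrable (S γ δ) volume a b :=
  ((isin _ a b).mul_const _).sub ((isin _ a b).mul_const _)

private theorem sin_pt (γ x y : ℝ) :
    Complex.sin (γ * ((x : ℂ) + (y : ℝ) * Complex.I)) =
      ((Real.sin (γ * x) * Real.cosh (γ * y) : ℝ) : ℂ) +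
        ((Real.cos (γ * x) * Real.sinh (γ * y) : ℝ) : ℂ) * Complex.I := by
  rw [mul_add, ← mul_assoc, Complex.sin_add, Complex.cos_mul_I, Complex.sin_mul_I]
  push_cast
  ring

private theorem prod_pt (γ δ x y : ℝ) :
    starRingEnd ℂ (Complex.sin (γ * ((x : ℂ) + (y : ℝ) * Complex.I))) *
      Complex.sin (δ * ((x : ℂ) + (y : ℝ) * Complex.I)) =
      (((Real.cos ((γ - δ) * x) * Real.cosh ((γ + δ) * y) -
        Real.cos ((γ + δ) * x) * Real.cosh ((γ - δ) * y)) / 2 : ℝ) : ℂ) +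
      (((Real.sin ((γ - δ) * x) * Real.sinh ((γ + δ) * y) -
        Real.sin ((γ + δ) * x) * Real.sinh ((γ - δ) * y)) / 2 : ℝ) : ℂ) * Complex.I := by
  rw [sin_pt, sin_pt]
  have e1 : Real.cos ((γ - δ) * x) = Real.cos (γ * x) * Real.cos (δ * x) +
      Real.sin (γ * x) * Real.sin (δ * x) := by rw [sub_mul, Real.cos_sub]
  have e2 : Real.cos ((γ + δ) * x) = Real.cos (γ * x) * Real.cos (δ * x) -
      Real.sin (γ * x) * Real.sin (δ * x) := by rw [add_mul, Real.cos_add]
  have e3 : Real.sin ((γ - δ) * x) = Real.sin (γ * x) * Real.cos (δ * x) -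
      Real.cos (γ * x) * Real.sin (δ * x) := by rw [sub_mul, Real.sin_sub]
  have e4 : Real.sin ((γ + δ) * x) = Real.sin (γ * x) * Real.cos (δ * x) +
      Real.cos (γ * x) * Real.sin (δ * x) := by rw [add_mul, Real.sin_add]
  have e5 : Real.cosh ((γ + δ) * y) = Real.cosh (γ * y) * Real.cosh (δ * y) +
      Real.sinh (γ * y) * Real.sinh (δ * y) := by rw [add_mul, Real.cosh_add]
  have e6 : Real.cosh ((γ - δ) * y) = Real.cosh (γ * y) * Real.cosh (δ * y) -
      Real.sinh (γ * y) * Real.sinh (δ * y) := by rw [sub_mul, Real.cosh_sub]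
  have e7 : Real.sinh ((γ + δ) * y) = Real.sinh (γ * y) * Real.cosh (δ * y) +
      Real.cosh (γ * y) * Real.sinh (δ * y) := by rw [add_mul, Real.sinh_add]
  have e8 : Real.sinh ((γ - δ) * y) = Real.sinh (γ * y) * Real.cosh (δ * y) -
      Real.cosh (γ * y) * Real.sinh (δ * y) := by rw [sub_mul, Real.sinh_sub]
  rw [e1, e2, e3, e4, e5, e6, e7, e8]
  simp only [map_add, map_mul, Complex.conj_ofReal, Complex.conj_I]
  generalize Real.sin (γ * x) = sa
  generalize Real.cos (γ * x) = ca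
  generalize Real.sin (δ * x) = sb
  generalize Real.cos (δ * x) = cb
  generalize Real.sinh (γ * y) = sp
  generalize Real.cosh (γ * y) = cp
  generalize Real.sinh (δ * y) = sq
  generalize Real.cosh (δ * y) = cq
  push_cast
  have hI : Complex.I * Complex.I = -1 := Complex.I_mul_I
  linear_combination (-(ca * sp * cb * sq : ℂ)) * hI

private theorem lim (h1 : S_Int) (γ δ : ℝ) : ∫ θ in (0 : ℝ)..π, P γ δ θ =
    π / Real.cosh (π * (γ - δ) / 2) * Real.cosh (π * (γ + δ) / 2) -
      π / Real.cosh (π * (γ + δ) / 2) * Real.cosh (π * (γ - δ) / 2) := by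
  unfold P
  rw [intervalIntegral.integral_sub ((icos _ 0 π).mul_const _) ((icos _ 0 π).mul_const _),
    intervalIntegral.integral_mul_const, intervalIntegral.integral_mul_const]
  have h2 := h1 (γ - δ)
  have h3 := h1 (γ + δ)
  unfold X
  rw [h2, h3]

private theorem alg (γ δ : ℝ) : (2 * π)⁻¹ * (π / Real.cosh (π * (γ - δ) / 2) *
    Real.cosh (π * (γ + δ) / 2) - π / Real.cosh (π * (γ + δ) / 2) *
      Real.cosh (π * (γ - δ) / 2)) = GG γ δ := by
  unfold GG
  have ea : π * γ = π * (γ + δ) / 2 + π * (γ - δ) / 2 := by ring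
  have eb : π * δ = π * (γ + δ) / 2 - π * (γ - δ) / 2 := by ring
  rw [ea, eb]
  generalize π * (γ + δ) / 2 = a
  generalize π * (γ - δ) / 2 = b
  rw [Real.sinh_add, Real.sinh_sub, Real.cosh_add, Real.cosh_sub]
  have h1 := Real.cosh_sq a
  have h2 := Real.cosh_sq b
  have h3 := Real.cosh_pos a
  have h4 := Real.cosh_pos b
  have h5 : Real.cosh a * Real.cosh b + Real.sinh a * Real.sinh b +
      (Real.cosh a * Real.cosh b - Real.sinh a * Real.sinh b) =
      2 * (Real.cosh a * Real.cosh b) := by ring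
  rw [h5]
  have hpi := Real.pi_pos
  rw [eq_div_iff (by positivity)]
  field_simp
  linear_combination (Real.cosh b ^ 2) * h1 - (Real.cosh a ^ 2) * h2

end Bint

open Bint in
/-- **BINT.** -/
theorem tBint (h1 : S_Int) (h2 : S_Lbd) : S_Bint := by
  obtain ⟨-, -, -, hL1, hL2, -, -⟩ := h2
  intro γ δ
  set h : ℝ → ℂ := fun θ => starRingEnd ℂ (Complex.sin (γ * L (Complex.exp (θ * Complex.I)))) *
      Complex.sin (δ * L (Complex.exp (θ * Complex.I))) with hh
  set J1 : ℝ → ℂ := fun θ => ((P γ δ θ / 2 : ℝ) : ℂ) + ((S γ δ θ / 2 : ℝ) : ℂ) * Complex.I with hJ1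
  set J2 : ℝ → ℂ := fun θ => ((P γ δ θ / 2 : ℝ) : ℂ) - ((S γ δ θ / 2 : ℝ) : ℂ) * Complex.I with hJ2
  have e1 : ∀ θ, 0 < θ → θ < π → h θ = J1 θ := by
    intro θ h3 h4
    rw [hh, hJ1]
    simp only
    rw [hL1 θ h3 h4]
    have h5 := prod_pt γ δ (X θ) (π / 2)
    unfold X at h5
    rw [h5]
    unfold P S X
    rw [show (γ + δ) * (π / 2) = π * (γ + δ) / 2 by ring,
      show (γ - δ) * (π / 2) = π * (γ - δ) / 2 by ring]
  have e2 : ∀ θ, 0 < θ → θ < π → h (2 * π - θ) = J2 θ := by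
    intro θ h3 h4
    rw [hh, hJ2]
    simp only
    rw [hL2 θ h3 h4]
    have h5 := prod_pt γ δ (X θ) (-(π / 2))
    unfold X at h5
    rw [show (((Real.log (Real.cos (θ / 2) / Real.sin (θ / 2)) : ℝ) : ℂ) -
      (π / 2 : ℝ) * Complex.I) = (((Real.log (Real.cos (θ / 2) / Real.sin (θ / 2)) : ℝ) : ℂ) +
      ((-(π / 2) : ℝ) : ℂ) * Complex.I) by push_cast; ring]
    rw [h5]
    unfold P S X
    rw [show (γ + δ) * (-(π / 2)) = -(π * (γ + δ) / 2) by ring,
      show (γ - δ) * (-(π / 2)) = -(π * (γ - δ) / 2) by ring, Real.cosh_neg, Real.cosh_neg,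
      Real.sinh_neg, Real.sinh_neg]
    push_cast
    ring
  have cJ1 : ∀ a b, IntervalIntegrable J1 volume a b := fun a b =>
    (iof _ _ _ ((iP γ δ a b).div_const 2)).add ((iof _ _ _ ((iS γ δ a b).div_const 2)).mul_const _)
  have cJ2 : ∀ a b, IntervalIntegrable J2 volume a b := fun a b =>
    (iof _ _ _ ((iP γ δ a b).div_const 2)).sub ((iof _ _ _ ((iS γ δ a b).div_const 2)).mul_const _)
  have npi : ∀ᵐ θ : ℝ, θ ≠ π := by
    have := (Set.countable_singleton (π : ℝ)).ae_notMem (volume : Measure ℝ)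
    filter_upwards [this] with x hx using hx
  have a1 : ∀ᵐ θ : ℝ, θ ∈ Set.uIoc 0 π → J1 θ = h θ := by
    filter_upwards [npi] with θ h3 h4
    rw [Set.uIoc_of_le Real.pi_pos.le] at h4
    exact (e1 θ h4.1 (lt_of_le_of_ne h4.2 h3)).symm
  have a2 : ∀ᵐ θ : ℝ, θ ∈ Set.uIoc 0 π → J2 θ = h (2 * π - θ) := by
    filter_upwards [npi] with θ h3 h4
    rw [Set.uIoc_of_le Real.pi_pos.le] at h4
    exact (e2 θ h4.1 (lt_of_le_of_ne h4.2 h3)).symm
  have c1 : IntervalIntegrable h volume 0 π :=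
    (cJ1 0 π).congr_ae ((ae_restrict_iff' measurableSet_uIoc).2 a1)
  have c2' : IntervalIntegrable (fun θ => h (2 * π - θ)) volume 0 π :=
    (cJ2 0 π).congr_ae ((ae_restrict_iff' measurableSet_uIoc).2 a2)
  have c2 : IntervalIntegrable h volume π (2 * π) := by
    have h3 := (c2'.comp_sub_left (2 * π)).symm
    simp only [sub_sub_cancel, sub_zero] at h3
    rwa [show 2 * π - π = π by ring] at h3
  have s1 : ∫ θ in (0 : ℝ)..(2 * π), h θ = (∫ θ in (0 : ℝ)..π, h θ) + ∫ θ in π..(2 * π), h θ :=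
    (intervalIntegral.integral_add_adjacent_intervals c1 c2).symm
  have s2 : ∫ θ in π..(2 * π), h θ = ∫ θ in (0 : ℝ)..π, h (2 * π - θ) := by
    rw [intervalIntegral.integral_comp_sub_left h (2 * π), sub_zero, show 2 * π - π = π by ring]
  rw [s1, s2, ← intervalIntegral.integral_congr_ae a1, ← intervalIntegral.integral_congr_ae a2,
    ← intervalIntegral.integral_add (cJ1 0 π) (cJ2 0 π)]
  have s3 : ∀ θ, J1 θ + J2 θ = ((P γ δ θ : ℝ) : ℂ) := by
    intro θ
    rw [hJ1, hJ2]
    push_cast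
    ring
  simp only [s3]
  rw [intervalIntegral.integral_ofReal, lim h1, ← alg γ δ]
  push_cast
  ring

end Pool.Agent.MPd61
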