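import Pool.Agent.Lib.MP_d61ac0_an.Spec

/-!
# MP_d61ac0_an: construction of the conjugation (Cnj)
-/

set_option autoImplicit false

namespace Pool.Agent.MPd61

open scoped Real InnerProductSpace Topology

namespace Cnj

variable {ι : Type}

/-- the linear map to the combinations of the `k i` -/
noncomputable def eK (k : ι → E2) : (ι →₀ ℂ) →ₗ[ℂ] E2 := Finsupp.linearCombination ℂ k

/-- the conjugate linear map to the combinations of the `Q i` -/
noncomputable def fQ (Q : ι → E2) : (ι →₀ ℂ) →ₛₗ[starRingEnd ℂ] E2 where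
  toFun c := c.sum fun i a => starRingEnd ℂ a • Q i
  map_add' c d := by
    refine Finsupp.sum_add_index' (fun i => ?_) (fun i a b => ?_)
    · rw [map_zero, zero_smul]
    · rw [map_add, add_smul]
  map_smul' m c := by
    rw [Finsupp.sum_smul_index' (fun i => by rw [map_zero, zero_smul]), Finsupp.smul_sum]
    refine Finsupp.sum_congr fun i _ => ?_
    rw [smul_eq_mul, map_mul, mul_smul]

theorem eK_single (k : ι → E2) (i : ι) (a : ℂ) : eK k (Finsupp.single i a) = a • k i := by
  unfold eK
  rw [Finsupp.linearCombination_single]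

theorem fQ_single (Q : ι → E2) (i : ι) (a : ℂ) :
    fQ Q (Finsupp.single i a) = starRingEnd ℂ a • Q i := by
  show (Finsupp.single i a).sum (fun i a => starRingEnd ℂ a • Q i) = _
  rw [Finsupp.sum_single_index (by rw [map_zero, zero_smul])]

theorem key1 {k Q : ι → E2} (h : ∀ i j, ⟪Q i, Q j⟫_ℂ = ⟪k j, k i⟫_ℂ) (c d : ι →₀ ℂ) :
    ⟪fQ Q c, fQ Q d⟫_ℂ = ⟪eK k d, eK k c⟫_ℂ := by
  induction c using Finsupp.induction_linear with
  | zero => simp
  | add c c' hc hc' => rw [map_add, map_add, inner_add_left, inner_add_right, hc, hc']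
  | single i a =>
    induction d using Finsupp.induction_linear with
    | zero => simp
    | add d d' hd hd' => rw [map_add, map_add, inner_add_left, inner_add_right, hd, hd']
    | single j b =>
      rw [fQ_single, fQ_single, eK_single, eK_single, inner_smul_left, inner_smul_right,
        inner_smul_left, inner_smul_right, h, Complex.conj_conj]
      ring

theorem key2 {k Q : ι → E2} (h : ∀ i j, ⟪Q i, k j⟫_ℂ = ⟪Q j, k i⟫_ℂ) (c d : ι →₀ ℂ) :
    ⟪fQ Q c, eK k d⟫_ℂ = ⟪fQ Q d, eK k c⟫_ℂ := by
  induction c using Finsupp.induction_linear with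
  | zero => simp
  | add c c' hc hc' => rw [map_add, map_add, inner_add_left, inner_add_right, hc, hc']
  | single i a =>
    induction d using Finsupp.induction_linear with
    | zero => simp
    | add d d' hd hd' => rw [map_add, map_add, inner_add_left, inner_add_right, hd, hd']
    | single j b =>
      rw [fQ_single, fQ_single, eK_single, eK_single, inner_smul_left, inner_smul_right,
        inner_smul_left, inner_smul_right, h, Complex.conj_conj, Complex.conj_conj]
      ring

theorem dense {k : ι → E2} (h : ∀ a : E2, (∀ i, ⟪k i, a⟫_ℂ = 0) → a = 0) :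
    DenseRange (eK k) := by
  have h1 : (LinearMap.range (eK k))ᗮ = ⊥ := by
    rw [eq_bot_iff]
    intro a ha
    rw [Submodule.mem_bot]
    refine h a fun i => ?_
    refine (Submodule.mem_orthogonal _ _).1 ha (k i) ⟨Finsupp.single i 1, ?_⟩
    rw [eK_single, one_smul]
  have h2 := (Submodule.topologicalClosure_eq_top_iff (K := LinearMap.range (eK k))).2 h1
  have h3 := Submodule.dense_iff_topologicalClosure_eq_top.2 h2
  exact h3

end Cnj

open Cnj

theorem tCnj : S_Cnj := by
  intro ι k Q σ W h1 h2 h3 h4 h5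
  have hd := dense h1
  have hn : ∀ c, ‖fQ Q c‖ ≤ 1 * ‖eK k c‖ := by
    intro c
    have h := key1 h2 c c
    rw [inner_self_eq_norm_sq_to_K, inner_self_eq_norm_sq_to_K] at h
    have h' : ‖fQ Q c‖ ^ 2 = ‖eK k c‖ ^ 2 := by exact_mod_cast h
    rw [one_mul]
    exact ((sq_eq_sq₀ (norm_nonneg _) (norm_nonneg _)).1 h').le
  set C : E2 →SL[starRingEnd ℂ] E2 := (fQ Q).extendOfNorm (eK k) with hC
  have hCe : ∀ c, C (eK k c) = fQ Q c := fun c =>
    LinearMap.extendOfNorm_eq hd ⟨1, hn⟩ c
  have hin : ∀ x y : E2, ⟪C x, C y⟫_ℂ = ⟪y, x⟫_ℂ := by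
    intro x y
    refine hd.induction_on₂ (p := fun x y => ⟪C x, C y⟫_ℂ = ⟪y, x⟫_ℂ) ?_ ?_ x y
    · exact isClosed_eq ((C.continuous.comp continuous_fst).inner
        (C.continuous.comp continuous_snd)) (continuous_snd.inner continuous_fst)
    · intro c d
      rw [hCe, hCe]
      exact key1 h2 c d
  have hsy : ∀ x y : E2, ⟪C x, y⟫_ℂ = ⟪C y, x⟫_ℂ := by
    intro x y
    refine hd.induction_on₂ (p := fun x y => ⟪C x, y⟫_ℂ = ⟪C y, x⟫_ℂ) ?_ ?_ x y
    · exact isClosed_eq ((C.continuous.comp continuous_fst).inner continuous_snd)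
        ((C.continuous.comp continuous_snd).inner continuous_fst)
    · intro c d
      rw [hCe, hCe]
      exact key2 h3 c d
  have hinv : ∀ x, C (C x) = x := by
    intro x
    refine ext_inner_right ℂ fun y => ?_
    rw [hsy, hin]
  have hadj : ∀ i, ContinuousLinearMap.adjoint W (k i) = k (σ i) := by
    intro i
    refine ext_inner_right ℂ fun y => ?_
    rw [ContinuousLinearMap.adjoint_inner_left, h4]
  have hCk : ∀ i, C (k i) = Q i := by
    intro i
    have := hCe (Finsupp.single i 1)
    rwa [eK_single, fQ_single, one_smul, map_one, one_smul] at this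
  have hcom : ∀ x, C (ContinuousLinearMap.adjoint W x) = W (C x) := by
    intro x
    refine hd.induction_on (p := fun x => C (ContinuousLinearMap.adjoint W x) = W (C x)) x ?_ ?_
    · exact isClosed_eq (C.continuous.comp (ContinuousLinearMap.adjoint W).continuous)
        (W.continuous.comp C.continuous)
    · intro c
      induction c using Finsupp.induction_linear with
      | zero => simp
      | add c c' hc hc' => rw [map_add, map_add, map_add, map_add, map_add, hc, hc']
      | single i a =>
        rw [eK_single, map_smul, hadj, ContinuousLinearMap.map_smulₛₗ,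
          ContinuousLinearMap.map_smulₛₗ, map_smul, hCk, hCk, h5]
  refine ⟨C, ⟨fun x y => map_add C x y, fun c x => C.map_smulₛₗ c x, fun x => ?_, hinv⟩, ?_⟩
  · have h := hin x x
    rw [inner_self_eq_norm_sq_to_K, inner_self_eq_norm_sq_to_K] at h
    have h' : ‖C x‖ ^ 2 = ‖x‖ ^ 2 := by exact_mod_cast h
    exact (sq_eq_sq₀ (norm_nonneg _) (norm_nonneg _)).1 h'
  · intro a
    have h := hcom (C a)
    rw [hinv] at h
    rw [← h, hinv]

end Pool.Agent.MPd61
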