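import Pool.Agent.Lib.MP_d61ac0_an.Spec

/-!
# MP_d61ac0_an: module Coef (odd Taylor series of `sin (γ L)`)
-/

set_option autoImplicit false

namespace Pool.Agent.MPd61

open scoped Real InnerProductSpace Topology

theorem tCoef (h1 : S_Lbd) : S_Coef := by
  obtain ⟨hL, -, hodd, -⟩ := h1
  intro γ
  have hf : DifferentiableOn ℂ (fun w => Complex.sin (γ * L w)) (Metric.ball 0 1) :=
    (hL.const_mul (γ : ℂ)).csin
  obtain ⟨c, hc⟩ : ∃ c : ℕ → ℂ, ∀ w : ℂ, ‖w‖ < 1 →
      HasSum (fun n => c n * w ^ n) (Complex.sin (γ * L w)) := by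
    refine ⟨fun n => ((n.factorial : ℂ))⁻¹ *
      iteratedDeriv n (fun w => Complex.sin (γ * L w)) 0, fun w hw => ?_⟩
    have h2 := Complex.hasSum_taylorSeries_on_ball hf (z := w) (by simpa using hw)
    refine h2.congr_fun ?_
    intro n
    simp only [sub_zero, smul_eq_mul]
    ring
  refine ⟨fun k => c (2 * k + 1), fun w hw => ?_⟩
  have h3 := hc w hw
  have h4 := hc (-w) (by rwa [norm_neg])
  rw [hodd, mul_neg, Complex.sin_neg] at h4
  have h5 := (h3.sub h4).div_const 2
  have h6 : (Complex.sin (γ * L w) - -Complex.sin (γ * L w)) / 2 = Complex.sin (γ * L w) := by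
    ring
  rw [h6] at h5
  have hinj : Function.Injective (fun k : ℕ => 2 * k + 1) := by
    intro a b h
    dsimp only at h
    omega
  rw [← hinj.hasSum_iff] at h5
  · refine h5.congr_fun ?_
    intro k
    simp only [Function.comp]
    have h7 : (-w) ^ (2 * k + 1) = -w ^ (2 * k + 1) := Odd.neg_pow ⟨k, rfl⟩ w
    rw [h7]
    ring
  · intro n hn
    have h8 : Even n := by
      rw [← Nat.not_odd_iff_even]
      rintro ⟨m, hm⟩
      exact hn ⟨m, hm.symm⟩
    rw [h8.neg_pow, sub_self, zero_div]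

end Pool.Agent.MPd61
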