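import Mathlib

/-!
# MP_d61ac0_an: the definitions of the statement

The Hardy space of the unit disk, realised by its Taylor coefficients, and conjugations.
-/

set_option autoImplicit false

namespace Pool.Agent.MPd61

open scoped Real

/-- The Hilbert space of square summable complex sequences (of Taylor coefficients). -/
abbrev E2 : Type := lp (fun _ : ℕ => ℂ) 2

/-- The function with Taylor coefficients `a`: `ev a z = ∑ a n * z ^ n`. -/
noncomputable def ev (a : E2) (z : ℂ) : ℂ := ∑' n : ℕ, a n * z ^ n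

/-- The mean of `|f|²` over the circle of radius `r`. -/
noncomputable def mean (f : ℂ → ℂ) (r : ℝ) : ℝ :=
  (2 * π)⁻¹ * ∫ θ in (0 : ℝ)..(2 * π), ‖f (r * Complex.exp (θ * Complex.I))‖ ^ 2

/-- `f` (on the unit disk) belongs to the Hardy space `H²`: it is holomorphic and its means over the
circles of radius `0 < r < 1` are bounded. -/
def MemH2 (f : ℂ → ℂ) : Prop :=
  DifferentiableOn ℂ f (Metric.ball 0 1) ∧ ∃ B : ℝ, ∀ r : ℝ, 0 < r → r < 1 → mean f r ≤ B

/-- A conjugation of the Hilbert space: conjugate linear, isometric, an involution. -/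
structure IsConj (C : E2 → E2) : Prop where
  /-- additive -/
  add : ∀ x y, C (x + y) = C x + C y
  /-- conjugate homogeneous -/
  smul : ∀ (c : ℂ) (x : E2), C (c • x) = (starRingEnd ℂ c) • C x
  /-- isometric -/
  norm : ∀ x, ‖C x‖ = ‖x‖
  /-- an involution -/
  invol : ∀ x, C (C x) = x

/-- `E2` with `ev` is the Hardy space: a function belongs to `H²` exactly if it agrees on the disk with
`ev a` for some `a : E2`, and `‖a‖²` is the supremum of the means of `ev a` over the circles of
radius `0 < r < 1` (so `ev` is an isometry of `E2` onto `H²`). -/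
def EvIsHardy : Prop :=
  (∀ f : ℂ → ℂ, MemH2 f ↔ ∃ a : E2, ∀ z ∈ Metric.ball (0 : ℂ) 1, f z = ev a z) ∧
    ∀ a : E2, IsLUB (mean (ev a) '' Set.Ioo 0 1) (‖a‖ ^ 2)

/-- The inner product of `E2` (conjugate linear in the first variable): `∑ conj (a n) * b n`. -/
noncomputable def ip (a b : E2) : ℂ := inner ℂ a b

/-- `f ↦ ψ · (f ∘ φ)` is a bounded operator `W` of the Hardy space which is complex symmetric:
`C W = W* C` for some conjugation `C`. (`C W = W* C` is written with inner products:
`⟨C W a, b⟩ = ⟨C a, W b⟩ = ⟨W* C a, b⟩` for all `a`, `b`.) -/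
def IsBddComplexSymm (ψ φ : ℂ → ℂ) : Prop :=
  ∃ (W : E2 →L[ℂ] E2) (C : E2 → E2),
    (∀ a : E2, ∀ z ∈ Metric.ball (0 : ℂ) 1, ev (W a) z = ψ z * ev a (φ z)) ∧
      IsConj C ∧ ∀ a b : E2, ip (C (W a)) b = ip (C a) (W b)

/-- `φ` is a linear fractional map on the disk. -/
def IsLinFrac (φ : ℂ → ℂ) : Prop :=
  ∃ a b c d : ℂ, a * d - b * c ≠ 0 ∧ ∀ z ∈ Metric.ball (0 : ℂ) 1,
    c * z + d ≠ 0 ∧ φ z = (a * z + b) / (c * z + d)

end Pool.Agent.MPd61
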