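import Pool.Agent.Lib.MP_d61ac0_an.Spec

/-!
# MP_d61ac0_an, module EvP: elementary facts on the sequence space and power series (helper5)
-/

set_option autoImplicit false

namespace Pool.Agent.MPd61

open scoped Real InnerProductSpace Topology

private theorem evP_le (a : E2) (n : ℕ) : ‖a n‖ ≤ ‖a‖ :=
  lp.norm_apply_le_norm (by norm_num) a n

private theorem evP_hasSum (a : E2) (z : ℂ) (hz : ‖z‖ < 1) :
    HasSum (fun n => a n * z ^ n) (ev a z) := by
  refine Summable.hasSum ?_
  refine Summable.of_norm_bounded ((summable_geometric_of_lt_one (norm_nonneg z) hz).mul_left ‖a‖)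
    fun n => ?_
  rw [norm_mul, norm_pow]
  exact mul_le_mul_of_nonneg_right (evP_le a n) (by positivity)

private theorem evP_diff (a : E2) : DifferentiableOn ℂ (ev a) (Metric.ball 0 1) := by
  intro z hz
  have hz1 : ‖z‖ < 1 := by simpa using hz
  obtain ⟨ρ, hρ1, hρ2⟩ := exists_between hz1
  have hρ0 : 0 ≤ ρ := (norm_nonneg z).trans hρ1.le
  have h1 : DifferentiableOn ℂ (ev a) (Metric.ball 0 ρ) := by
    refine Complex.differentiableOn_tsum_of_summable_norm (u := fun n => ‖a‖ * ρ ^ n)
      ((summable_geometric_of_lt_one hρ0 hρ2).mul_left ‖a‖) (fun n => ?_) Metric.isOpen_ball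
      fun n w hw => ?_
    · fun_prop
    · have hw1 : ‖w‖ < ρ := by simpa using hw
      rw [norm_mul, norm_pow]
      exact mul_le_mul (evP_le a n) (pow_le_pow_left₀ (norm_nonneg w) hw1.le n) (by positivity)
        (norm_nonneg a)
  exact (h1.differentiableAt (Metric.isOpen_ball.mem_nhds (by simpa using hρ1))).differentiableWithinAt

theorem tEv : S_Ev := by
  refine ⟨evP_hasSum, evP_diff, ?_, ?_, ?_⟩
  · intro a ha
    have hp : HasFPowerSeriesAt (ev a) (FormalMultilinearSeries.ofScalars ℂ (fun n => a n)) 0 := by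
      rw [hasFPowerSeriesAt_iff]
      filter_upwards [Metric.ball_mem_nhds (0 : ℂ) one_pos] with z hz
      have hz1 : ‖z‖ < 1 := by simpa using hz
      rw [zero_add]
      have h2 : (fun n => z ^ n • (FormalMultilinearSeries.ofScalars ℂ (fun n => a n)).coeff n) =
          fun n => a n * z ^ n := by
        funext n
        rw [FormalMultilinearSeries.coeff_ofScalars, smul_eq_mul, mul_comm]
      rw [h2]
      exact evP_hasSum a z hz1
    have hfr : ∃ᶠ z : ℂ in 𝓝[≠] 0, ev a z = 0 := by
      have ht : Filter.Tendsto (fun t : ℝ => (t : ℂ)) (𝓝[>] 0) (𝓝[≠] 0) := by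
        refine tendsto_nhdsWithin_iff.2 ⟨?_, ?_⟩
        · have h5 : Filter.Tendsto (fun t : ℝ => (t : ℂ)) (𝓝 0) (𝓝 ((0 : ℝ) : ℂ)) :=
            Complex.continuous_ofReal.continuousAt
          rw [Complex.ofReal_zero] at h5
          exact h5.mono_left nhdsWithin_le_nhds
        · filter_upwards [self_mem_nhdsWithin] with t ht
          exact Complex.ofReal_ne_zero.2 (ne_of_gt ht)
      refine ht.frequently (Filter.Eventually.frequently ?_)
      filter_upwards [Ioo_mem_nhdsGT (zero_lt_one' ℝ)] with t ht
      exact ha t ht.1 ht.2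
    have h1 := (hp.analyticAt.frequently_zero_iff_eventually_zero).1 hfr
    have h2 := hp.locally_zero_iff.1 h1
    have h3 := (FormalMultilinearSeries.ofScalars_series_eq_zero ℂ).1 h2
    ext n
    exact congrFun h3 n
  · intro a
    have h1 := lp.hasSum_norm (p := 2) (by norm_num) a
    simpa using h1
  · intro c hc
    refine ⟨⟨c, memℓp_gen ?_⟩, fun n => rfl⟩
    simpa using hc

end Pool.Agent.MPd61
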