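import Pool.Agent.Lib.MP_d61ac0_an.Spec

/-!
# MP_d61ac0_an: assembly of the Gram identity (statement S_Gram)
-/

set_option autoImplicit false

namespace Pool.Agent.MPd61

open scoped Real Topology

/-- the coefficients of the odd power series -/
private noncomputable def Gram_od (b : ℕ → ℂ) (n : ℕ) : ℂ :=
  if n % 2 = 1 then b ((n - 1) / 2) else 0

private theorem Gram_inj : Function.Injective (fun k : ℕ => 2 * k + 1) := by
  intro a b h
  simp only at h
  omega

private theorem Gram_od_odd (b : ℕ → ℂ) (k : ℕ) : Gram_od b (2 * k + 1) = b k := by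
  unfold Gram_od
  have h1 : (2 * k + 1) % 2 = 1 := by omega
  have h2 : (2 * k + 1 - 1) / 2 = k := by omega
  rw [if_pos h1, h2]

private theorem Gram_od_even (b : ℕ → ℂ) (n : ℕ) (hn : n ∉ Set.range (fun k : ℕ => 2 * k + 1)) :
    Gram_od b n = 0 := by
  unfold Gram_od
  rw [if_neg]
  intro h
  apply hn
  exact ⟨n / 2, by simp only; omega⟩

private theorem Gram_series (b : ℕ → ℂ) (w s : ℂ)
    (h : HasSum (fun k => b k * w ^ (2 * k + 1)) s) : HasSum (fun n => Gram_od b n * w ^ n) s := by
  rw [← Function.Injective.hasSum_iff Gram_inj]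
  · have e : ((fun n => Gram_od b n * w ^ n) ∘ fun k : ℕ => 2 * k + 1) =
        fun k => b k * w ^ (2 * k + 1) := by
      funext k
      simp only [Function.comp]
      rw [Gram_od_odd]
    rw [e]
    exact h
  · intro n hn
    rw [Gram_od_even b n hn, zero_mul]

/-- GRAM: assembly of the Gram identity. -/
theorem tGram (h1 : S_Lbd) (h2 : S_Bdry) (h3 : S_Bint) : S_Gram := by
  intro γ δ b c hb hc
  obtain ⟨-, hbd, -, -, -, hlim, -⟩ := h1
  have key := h2 (Gram_od b) (Gram_od c) (fun w => Complex.sin (γ * L w))
    (fun w => Complex.sin (δ * L w))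
    (fun θ => Complex.sin (γ * L (Complex.exp (θ * Complex.I))))
    (fun θ => Complex.sin (δ * L (Complex.exp (θ * Complex.I))))
    (max (Real.cosh (π * γ / 2)) (Real.cosh (π * δ / 2)))
    (fun z hz => Gram_series b z _ (hb z hz)) (fun z hz => Gram_series c z _ (hc z hz))
    (fun z hz => (hbd γ z hz).trans (le_max_left _ _))
    (fun z hz => (hbd δ z hz).trans (le_max_right _ _))
    (fun θ t0 t1 t2 => ((Complex.continuous_sin.comp
      (continuous_const.mul continuous_id)).tendsto _).comp (hlim θ t0 t1 t2))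
    (fun θ t0 t1 t2 => ((Complex.continuous_sin.comp
      (continuous_const.mul continuous_id)).tendsto _).comp (hlim θ t0 t1 t2))
  rw [h3 γ δ, ← Function.Injective.hasSum_iff Gram_inj] at key
  · have e : ((fun n => starRingEnd ℂ (Gram_od b n) * Gram_od c n) ∘ fun k : ℕ => 2 * k + 1) =
        fun k => starRingEnd ℂ (b k) * c k := by
      funext k
      simp only [Function.comp]
      rw [Gram_od_odd, Gram_od_odd]
    rw [e] at key
    exact key
  · intro n hn
    rw [Gram_od_even c n hn, mul_zero]

end Pool.Agent.MPd61
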