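import Pool.Agent.Lib.MP_d61ac0_an.Spec

/-!
# MP_d61ac0_an: a Beta integral (IntP)
-/

set_option autoImplicit false

namespace Pool.Agent.MPd61

open scoped Real Topology
open MeasureTheory Set

namespace IntP

/-- the substitution -/
noncomputable def g (θ : ℝ) : ℝ := (1 + Real.cos θ) / 2

theorem g_deriv (θ : ℝ) : HasDerivAt g (-Real.sin θ / 2) θ := by
  unfold g
  exact ((Real.hasDerivAt_cos θ).const_add 1).div_const 2

theorem g_inj : InjOn g (Ioo 0 π) := by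
  intro x hx y hy h
  unfold g at h
  have h' : Real.cos x = Real.cos y := by linarith
  exact Real.injOn_cos ⟨hx.1.le, hx.2.le⟩ ⟨hy.1.le, hy.2.le⟩ h'

theorem g_image : g '' Ioo 0 π = Ioo 0 1 := by
  ext u
  constructor
  · rintro ⟨θ, hθ, rfl⟩
    have h1 : Real.cos θ < 1 := by
      rw [← Real.cos_zero]
      exact Real.cos_lt_cos_of_nonneg_of_le_pi le_rfl hθ.2.le hθ.1
    have h2 : -1 < Real.cos θ := by
      rw [← Real.cos_pi]
      exact Real.cos_lt_cos_of_nonneg_of_le_pi hθ.1.le le_rfl hθ.2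
    unfold g
    constructor <;> linarith
  · rintro ⟨h0, h1⟩
    refine ⟨Real.arccos (2 * u - 1), ⟨?_, ?_⟩, ?_⟩
    · rw [Real.arccos_pos]
      linarith
    · have := Real.arccos_lt_pi (x := 2 * u - 1) |>.2 (by linarith)
      exact this
    · unfold g
      rw [Real.cos_arccos (by linarith) (by linarith)]
      ring

theorem half_pos {θ : ℝ} (h : θ ∈ Ioo 0 π) : 0 < Real.cos (θ / 2) ∧ 0 < Real.sin (θ / 2) := by
  constructor
  · refine Real.cos_pos_of_mem_Ioo ⟨?_, ?_⟩ <;> linarith [h.1, h.2, Real.pi_pos]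
  · refine Real.sin_pos_of_pos_of_lt_pi ?_ ?_ <;> linarith [h.1, h.2, Real.pi_pos]

theorem g_cos (θ : ℝ) : g θ = Real.cos (θ / 2) ^ 2 := by
  unfold g
  rw [Real.cos_sq]
  ring_nf

theorem g_sin (θ : ℝ) : 1 - g θ = Real.sin (θ / 2) ^ 2 := by
  rw [g_cos, Real.sin_sq]

/-- the Beta integrand -/
noncomputable def H (A : ℝ) (u : ℝ) : ℂ :=
  (u : ℂ) ^ ((1 / 2 + (A / 2 : ℝ) * Complex.I : ℂ) - 1) *
    (1 - (u : ℂ)) ^ ((1 / 2 - (A / 2 : ℝ) * Complex.I : ℂ) - 1)

/-- the transformed integrand -/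
noncomputable def F (A : ℝ) (θ : ℝ) : ℂ :=
  Complex.exp (((A * Real.log (Real.cos (θ / 2) / Real.sin (θ / 2)) : ℝ) : ℂ) * Complex.I)

theorem pow_sq {c : ℝ} (hc : 0 < c) (w : ℂ) :
    ((c ^ 2 : ℝ) : ℂ) ^ w = Complex.exp (2 * (Real.log c : ℂ) * w) := by
  rw [Complex.cpow_def_of_ne_zero (by exact_mod_cast (pow_pos hc 2).ne'), ← Complex.ofReal_log
    (pow_pos hc 2).le, Real.log_pow]
  push_cast
  ring_nf

theorem trans_eq (A : ℝ) {θ : ℝ} (h : θ ∈ Ioo 0 π) :
    |(-Real.sin θ / 2)| • H A (g θ) = F A θ := by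
  obtain ⟨hc, hs⟩ := half_pos h
  have e1 : |(-Real.sin θ / 2)| = Real.cos (θ / 2) * Real.sin (θ / 2) := by
    have h1 : Real.sin θ = 2 * Real.sin (θ / 2) * Real.cos (θ / 2) := by
      rw [← Real.sin_two_mul]
      ring_nf
    rw [h1]
    have h2 : -(2 * Real.sin (θ / 2) * Real.cos (θ / 2)) / 2 =
        -(Real.cos (θ / 2) * Real.sin (θ / 2)) := by ring
    rw [h2, abs_neg, abs_of_pos (mul_pos hc hs)]
  have e2 : (1 - ((g θ : ℝ) : ℂ)) = ((Real.sin (θ / 2) ^ 2 : ℝ) : ℂ) := by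
    rw [← g_sin]
    push_cast
    rfl
  unfold H F
  rw [e1, e2, g_cos, pow_sq hc, pow_sq hs, Real.log_div hc.ne' hs.ne']
  have ec : ((Real.cos (θ / 2) : ℝ) : ℂ) = Complex.exp (Real.log (Real.cos (θ / 2)) : ℂ) := by
    rw [← Complex.ofReal_exp, Real.exp_log hc]
  have es : ((Real.sin (θ / 2) : ℝ) : ℂ) = Complex.exp (Real.log (Real.sin (θ / 2)) : ℂ) := by
    rw [← Complex.ofReal_exp, Real.exp_log hs]
  rw [Complex.real_smul]
  rw [Complex.ofReal_mul, ec, es, ← Complex.exp_add, ← Complex.exp_add, ← Complex.exp_add]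
  congr 1
  push_cast
  ring

theorem beta (A : ℝ) : Complex.betaIntegral (1 / 2 + (A / 2 : ℝ) * Complex.I)
    (1 / 2 - (A / 2 : ℝ) * Complex.I) = ((π / Real.cosh (π * A / 2) : ℝ) : ℂ) := by
  have ha : 0 < (1 / 2 + (A / 2 : ℝ) * Complex.I : ℂ).re := by simp
  have hb : 0 < (1 / 2 - (A / 2 : ℝ) * Complex.I : ℂ).re := by simp
  have h1 := Complex.Gamma_mul_Gamma_eq_betaIntegral ha hb
  have h2 : (1 / 2 + (A / 2 : ℝ) * Complex.I : ℂ) + (1 / 2 - (A / 2 : ℝ) * Complex.I) = 1 := by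
    ring
  have h3 : (1 / 2 - (A / 2 : ℝ) * Complex.I : ℂ) = 1 - (1 / 2 + (A / 2 : ℝ) * Complex.I) := by
    ring
  rw [h2, Complex.Gamma_one, one_mul] at h1
  rw [← h1, h3, Complex.Gamma_mul_Gamma_one_sub]
  have h4 : (π : ℂ) * (1 / 2 + (A / 2 : ℝ) * Complex.I) =
      ((π * A / 2 : ℝ) : ℂ) * Complex.I + π / 2 := by
    push_cast
    ring
  rw [h4, Complex.sin_add_pi_div_two, Complex.cos_mul_I]
  push_cast
  rfl

end IntP

open IntP

theorem tInt : S_Int := by
  intro A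
  have ha : 0 < (1 / 2 + (A / 2 : ℝ) * Complex.I : ℂ).re := by simp
  have hb : 0 < (1 / 2 - (A / 2 : ℝ) * Complex.I : ℂ).re := by simp
  have hd : ∀ x ∈ Ioo 0 π, HasDerivWithinAt g (-Real.sin x / 2) (Ioo 0 π) x := fun x _ =>
    (g_deriv x).hasDerivWithinAt
  have hH : IntegrableOn (H A) (Ioo 0 1) volume := by
    have := Complex.betaIntegral_convergent ha hb
    rw [intervalIntegrable_iff_integrableOn_Ioo_of_le zero_le_one] at this
    exact this
  have hF : IntegrableOn (F A) (Ioo 0 π) volume := by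
    rw [← g_image, integrableOn_image_iff_integrableOn_abs_deriv_smul measurableSet_Ioo hd
      g_inj] at hH
    exact hH.congr_fun (fun θ hθ => trans_eq A hθ) measurableSet_Ioo
  have hsub := integral_image_eq_integral_abs_deriv_smul (F := ℂ) measurableSet_Ioo hd g_inj (H A)
  rw [g_image, setIntegral_congr_fun measurableSet_Ioo (fun θ hθ => trans_eq A hθ)] at hsub
  have hbeta : ∫ u in Ioo 0 1, H A u = ((π / Real.cosh (π * A / 2) : ℝ) : ℂ) := by
    rw [← beta A, Complex.betaIntegral, intervalIntegral.integral_of_le zero_le_one,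
      integral_Ioc_eq_integral_Ioo]
    rfl
  rw [hbeta] at hsub
  have hre : ∫ θ in Ioo 0 π, (F A θ).re = π / Real.cosh (π * A / 2) := by
    have h1 := integral_re (𝕜 := ℂ) (f := F A) (μ := volume.restrict (Ioo 0 π)) hF
    simp only [RCLike.re_eq_complex_re] at h1
    rw [h1, ← hsub, Complex.ofReal_re]
  rw [intervalIntegral.integral_of_le Real.pi_pos.le, integral_Ioc_eq_integral_Ioo, ← hre]
  refine setIntegral_congr_fun measurableSet_Ioo fun θ _ => ?_
  show _ = (Complex.exp _).re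
  rw [Complex.exp_ofReal_mul_I_re]

end Pool.Agent.MPd61
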