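import Pool.Agent.Lib.MP_d61ac0_an.Spec

/-!
# MP_d61ac0_an: the function `L` on the disk and its boundary values (helper7)
-/

set_option autoImplicit false

namespace Pool.Agent.MPd61

open scoped Real InnerProductSpace Topology

private theorem Lbd_re {w : ℂ} (hw : ‖w‖ < 1) : 0 < (1 + w).re ∧ 0 < (1 - w).re := by
  have h1 := Complex.abs_re_le_norm w
  have h2 := abs_lt.1 (lt_of_le_of_lt h1 hw)
  rw [Complex.add_re, Complex.sub_re, Complex.one_re]
  constructor <;> linarith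

private theorem Lbd_mem {w : ℂ} (hw : 0 < (1 + w).re ∧ 0 < (1 - w).re) :
    ContinuousAt L w ∧ DifferentiableAt ℂ L w := by
  have h1 : 1 + w ∈ Complex.slitPlane := Or.inl hw.1
  have h2 : 1 - w ∈ Complex.slitPlane := Or.inl hw.2
  have h3 : DifferentiableAt ℂ L w := by
    unfold L
    exact ((differentiableAt_id.const_add 1).clog h1).sub
      ((differentiableAt_id.const_sub 1).clog h2)
  exact ⟨h3.continuousAt, h3⟩

private theorem Lbd_cos {w : ℂ} (hw : ‖w‖ < 1) : |(L w).im| < π / 2 := by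
  obtain ⟨h1, h2⟩ := Lbd_re hw
  have h3 : (L w).im = Complex.arg (1 + w) - Complex.arg (1 - w) := by
    unfold L
    rw [Complex.sub_im, Complex.log_im, Complex.log_im]
  have h4 : |Complex.arg (1 + w)| < π / 2 :=
    Complex.abs_arg_lt_pi_div_two_iff.2 (Or.inl h1)
  have h5 : |Complex.arg (1 - w)| < π / 2 :=
    Complex.abs_arg_lt_pi_div_two_iff.2 (Or.inl h2)
  have h6 : 1 + w ≠ 0 := by
    intro h
    rw [h] at h1
    exact lt_irrefl _ h1
  have h7 : 1 - w ≠ 0 := by
    intro h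
    rw [h] at h2
    exact lt_irrefl _ h2
  have h8 : 0 < Real.cos (L w).im := by
    rw [h3, Real.cos_sub, Complex.cos_arg h6, Complex.cos_arg h7, Complex.sin_arg,
      Complex.sin_arg, div_mul_div_comm, div_mul_div_comm, ← add_div]
    refine div_pos ?_ (mul_pos (norm_pos_iff.2 h6) (norm_pos_iff.2 h7))
    rw [Complex.add_re, Complex.sub_re, Complex.add_im, Complex.sub_im, Complex.one_re,
      Complex.one_im]
    have h9 : ‖w‖ ^ 2 = w.re * w.re + w.im * w.im := by
      rw [← Complex.normSq_eq_norm_sq, Complex.normSq_apply]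
    have h10 : ‖w‖ ^ 2 < 1 := by
      have := norm_nonneg w
      nlinarith
    nlinarith
  by_contra hcon
  rw [not_lt] at hcon
  rw [← Real.cos_abs] at h8
  have h11 : |(L w).im| ≤ π + π / 2 := by
    rw [h3]
    have h12 := abs_lt.1 h4
    have h13 := abs_lt.1 h5
    have := Real.pi_pos
    rw [abs_le]
    constructor <;> linarith
  exact absurd (Real.cos_nonpos_of_pi_div_two_le_of_le hcon h11) (not_le.2 h8)

private theorem Lbd_sin (z : ℂ) : ‖Complex.sin z‖ ≤ Real.cosh z.im := by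
  unfold Complex.sin
  rw [norm_div, norm_mul, Complex.norm_I, mul_one, Complex.norm_two, Real.cosh_eq]
  refine div_le_div_of_nonneg_right ?_ (by norm_num)
  refine (norm_sub_le _ _).trans (le_of_eq ?_)
  rw [Complex.norm_exp, Complex.norm_exp]
  congr 2
  · simp
  · simp

private theorem Lbd_val {x : ℂ} {r s α β : ℝ} (hr : 0 < r) (hs : 0 < s) (hα : -π < α)
    (hα' : α ≤ π) (hβ : -π < β) (hβ' : β ≤ π) (h1 : 1 + x = r * Complex.exp (α * Complex.I))
    (h2 : 1 - x = s * Complex.exp (β * Complex.I)) :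
    L x = ((Real.log (r / s) : ℝ) : ℂ) + ((α - β : ℝ) : ℂ) * Complex.I := by
  unfold L
  rw [h1, h2, Complex.log_ofReal_mul hr (Complex.exp_ne_zero _),
    Complex.log_ofReal_mul hs (Complex.exp_ne_zero _), Complex.log_exp, Complex.log_exp,
    Real.log_div hr.ne' hs.ne']
  · push_cast
    ring
  · simpa using hβ
  · simpa using hβ'
  · simpa using hα
  · simpa using hα'

private theorem Lbd_e1 (θ : ℝ) : 1 + Complex.exp (θ * Complex.I) =
    ((2 * Real.cos (θ / 2) : ℝ) : ℂ) * Complex.exp (((θ / 2 : ℝ) : ℂ) * Complex.I) := by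
  have h1 : Complex.exp (θ * Complex.I) = Complex.exp (((θ / 2 : ℝ) : ℂ) * Complex.I) *
      Complex.exp (((θ / 2 : ℝ) : ℂ) * Complex.I) := by
    rw [← Complex.exp_add]
    congr 1
    push_cast
    ring
  have h2 : Complex.exp (((θ / 2 : ℝ) : ℂ) * Complex.I) *
      Complex.exp (-((θ / 2 : ℝ) : ℂ) * Complex.I) = 1 := by
    rw [← Complex.exp_add]
    have : ((θ / 2 : ℝ) : ℂ) * Complex.I + -((θ / 2 : ℝ) : ℂ) * Complex.I = 0 := by ring
    rw [this, Complex.exp_zero]
  rw [Complex.ofReal_mul, Complex.ofReal_cos, Complex.cos, h1]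
  push_cast
  push_cast at h2
  linear_combination -h2

private theorem Lbd_e2 (θ : ℝ) : 1 - Complex.exp (θ * Complex.I) =
    ((2 * Real.sin (θ / 2) : ℝ) : ℂ) * Complex.exp (((θ / 2 - π / 2 : ℝ) : ℂ) * Complex.I) := by
  have h1 : Complex.exp (θ * Complex.I) = Complex.exp (((θ / 2 : ℝ) : ℂ) * Complex.I) *
      Complex.exp (((θ / 2 : ℝ) : ℂ) * Complex.I) := by
    rw [← Complex.exp_add]
    congr 1
    push_cast
    ring
  have h2 : Complex.exp (((θ / 2 : ℝ) : ℂ) * Complex.I) *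
      Complex.exp (-((θ / 2 : ℝ) : ℂ) * Complex.I) = 1 := by
    rw [← Complex.exp_add]
    have : ((θ / 2 : ℝ) : ℂ) * Complex.I + -((θ / 2 : ℝ) : ℂ) * Complex.I = 0 := by ring
    rw [this, Complex.exp_zero]
  have h3 : Complex.exp (((θ / 2 - π / 2 : ℝ) : ℂ) * Complex.I) =
      Complex.exp (((θ / 2 : ℝ) : ℂ) * Complex.I) * (-Complex.I) := by
    have h4 : Complex.exp (-(π / 2 : ℂ) * Complex.I) = -Complex.I := by
      rw [neg_mul, Complex.exp_neg, Complex.exp_pi_div_two_mul_I, Complex.inv_I]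
    rw [← h4, ← Complex.exp_add]
    congr 1
    push_cast
    ring
  rw [Complex.ofReal_mul, Complex.ofReal_sin, Complex.sin, h3, h1]
  push_cast
  push_cast at h2
  linear_combination -h2 + (Complex.exp ((θ / 2 : ℂ) * Complex.I) *
    Complex.exp (-(θ / 2 : ℂ) * Complex.I) -
    Complex.exp ((θ / 2 : ℂ) * Complex.I) ^ 2) * Complex.I_sq

private theorem Lbd_cs {θ : ℝ} (h0 : 0 < θ) (h1 : θ < π) :
    0 < Real.cos (θ / 2) ∧ 0 < Real.sin (θ / 2) := by
  refine ⟨Real.cos_pos_of_mem_Ioo ⟨?_, ?_⟩, Real.sin_pos_of_pos_of_lt_pi ?_ ?_⟩ <;>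
  linarith [Real.pi_pos]

private theorem Lbd_v1 {θ : ℝ} (h0 : 0 < θ) (h1 : θ < π) : L (Complex.exp (θ * Complex.I)) =
    ((Real.log (Real.cos (θ / 2) / Real.sin (θ / 2)) : ℝ) : ℂ) + (π / 2 : ℝ) * Complex.I := by
  obtain ⟨hc, hs⟩ := Lbd_cs h0 h1
  rw [Lbd_val (mul_pos two_pos hc) (mul_pos two_pos hs) (by linarith [Real.pi_pos]) (by linarith)
    (by linarith) (by linarith) (Lbd_e1 θ) (Lbd_e2 θ), mul_div_mul_left _ _ two_ne_zero]
  congr 3
  ring

private theorem Lbd_v2 {θ : ℝ} (h0 : 0 < θ) (h1 : θ < π) :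
    L (Complex.exp (((2 * π - θ : ℝ) : ℂ) * Complex.I)) =
    ((Real.log (Real.cos (θ / 2) / Real.sin (θ / 2)) : ℝ) : ℂ) - (π / 2 : ℝ) * Complex.I := by
  have h2 : Complex.exp (((2 * π - θ : ℝ) : ℂ) * Complex.I) =
      (starRingEnd ℂ) (Complex.exp (θ * Complex.I)) := by
    rw [← Complex.exp_conj, map_mul, Complex.conj_ofReal, Complex.conj_I,
      Complex.exp_eq_exp_iff_exists_int]
    refine ⟨1, ?_⟩
    push_cast
    ring
  obtain ⟨hc, hs⟩ := Lbd_cs h0 h1
  have h3 : ∀ x : ℂ, (starRingEnd ℂ) (Complex.exp ((x : ℂ) * Complex.I)) =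
      Complex.exp ((starRingEnd ℂ x) * -Complex.I) := by
    intro x
    rw [← Complex.exp_conj, map_mul, Complex.conj_I]
  have h4 : 1 + (starRingEnd ℂ) (Complex.exp (θ * Complex.I)) =
      ((2 * Real.cos (θ / 2) : ℝ) : ℂ) * Complex.exp (((-(θ / 2) : ℝ) : ℂ) * Complex.I) := by
    have h5 := congrArg (starRingEnd ℂ) (Lbd_e1 θ)
    rw [map_add, map_one, map_mul, Complex.conj_ofReal, h3 ((θ / 2 : ℝ) : ℂ),
      Complex.conj_ofReal] at h5
    rw [h5]
    congr 2
    push_cast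
    ring
  have h5 : 1 - (starRingEnd ℂ) (Complex.exp (θ * Complex.I)) =
      ((2 * Real.sin (θ / 2) : ℝ) : ℂ) *
        Complex.exp (((π / 2 - θ / 2 : ℝ) : ℂ) * Complex.I) := by
    have h6 := congrArg (starRingEnd ℂ) (Lbd_e2 θ)
    rw [map_sub, map_one, map_mul, Complex.conj_ofReal, h3 ((θ / 2 - π / 2 : ℝ) : ℂ),
      Complex.conj_ofReal] at h6
    rw [h6]
    congr 2
    push_cast
    ring
  rw [h2, Lbd_val (mul_pos two_pos hc) (mul_pos two_pos hs) (by linarith [Real.pi_pos])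
    (by linarith [Real.pi_pos]) (by linarith [Real.pi_pos]) (by linarith) h4 h5,
    mul_div_mul_left _ _ two_ne_zero]
  push_cast
  ring

private theorem Lbd_t {θ : ℝ} (h0 : 0 < θ) (h1 : θ < 2 * π) (h2 : θ ≠ π) :
    Filter.Tendsto (fun r : ℝ => L (r * Complex.exp (θ * Complex.I))) (𝓝[<] 1)
      (𝓝 (L (Complex.exp (θ * Complex.I)))) := by
  have hs : Real.sin θ ≠ 0 := by
    rcases lt_or_gt_of_ne h2 with h | h
    · exact (Real.sin_pos_of_pos_of_lt_pi h0 h).ne'
    · have h3 : 0 < Real.sin (θ - π) :=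
        Real.sin_pos_of_pos_of_lt_pi (by linarith) (by linarith)
      rw [Real.sin_sub_pi] at h3
      intro h4
      rw [h4] at h3
      linarith
  have hc : Real.cos θ ^ 2 < 1 := by
    have h3 := Real.sin_sq_add_cos_sq θ
    have h4 : 0 < Real.sin θ ^ 2 := by positivity
    linarith
  have hc' := abs_lt.1 ((sq_lt_one_iff_abs_lt_one _).1 hc)
  have hcont : ContinuousAt L (Complex.exp (θ * Complex.I)) := by
    refine (Lbd_mem ?_).1
    rw [Complex.add_re, Complex.sub_re, Complex.one_re, Complex.exp_ofReal_mul_I_re]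
    constructor <;> linarith
  have h3 : Filter.Tendsto (fun r : ℝ => (r : ℂ) * Complex.exp (θ * Complex.I)) (𝓝[<] 1)
      (𝓝 (Complex.exp (θ * Complex.I))) := by
    have h4 : Filter.Tendsto (fun r : ℝ => (r : ℂ) * Complex.exp (θ * Complex.I)) (𝓝 1)
        (𝓝 (((1 : ℝ) : ℂ) * Complex.exp (θ * Complex.I))) := by
      have h5 : Continuous fun r : ℝ => (r : ℂ) * Complex.exp (θ * Complex.I) := by fun_prop
      exact h5.tendsto 1
    rw [Complex.ofReal_one, one_mul] at h4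
    exact h4.mono_left nhdsWithin_le_nhds
  exact hcont.tendsto.comp h3

private theorem Lbd_q {q : ℝ} (h0 : 0 < q) (h1 : q < 1) : L (q : ℂ) = (ell q : ℂ) := by
  unfold L ell
  rw [Real.log_div (by linarith) (by linarith), Complex.ofReal_sub,
    Complex.ofReal_log (by linarith), Complex.ofReal_log (by linarith)]
  push_cast
  rfl

theorem tLbd : S_Lbd := by
  refine ⟨fun w hw => ?_, fun γ w hw => ?_, fun w => ?_, fun θ h0 h1 => Lbd_v1 h0 h1,
    fun θ h0 h1 => Lbd_v2 h0 h1, fun θ h0 h1 h2 => Lbd_t h0 h1 h2, fun q h0 h1 => Lbd_q h0 h1⟩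
  · rw [Metric.mem_ball, dist_zero_right] at hw
    exact (Lbd_mem (Lbd_re hw)).2.differentiableWithinAt
  · refine (Lbd_sin _).trans ?_
    rw [Complex.im_ofReal_mul γ (L w), Real.cosh_le_cosh]
    have h1 := (Lbd_cos hw).le
    rw [abs_mul]
    have h2 : |π * γ / 2| = |γ| * (π / 2) := by
      rw [abs_div, abs_mul, abs_of_pos Real.pi_pos, abs_of_pos (two_pos : (0 : ℝ) < 2)]
      ring
    rw [h2]
    exact mul_le_mul_of_nonneg_left h1 (abs_nonneg _)
  · unfold L
    rw [sub_neg_eq_add, ← sub_eq_add_neg]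
    ring

end Pool.Agent.MPd61
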