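import Pool.Agent.Lib.MP_d61ac0_an.Spec

/-!
# MP_d61ac0_an: assembly of the theorem
-/

set_option autoImplicit false

namespace Pool.Agent.MPd61

open scoped Real InnerProductSpace Topology

namespace Main

/-- the index type of the kernel vectors: the real interval `(0, 1)` -/
abbrev I01 : Type := {q : ℝ // 0 < q ∧ q < 1}

theorem inner_c (x y : ℂ) : ⟪x, y⟫_ℂ = starRingEnd ℂ x * y := by
  rw [RCLike.inner_apply, mul_comm]

theorem inner_k (h1 : S_Ev) {q : ℝ} (hq0 : 0 < q) (hq1 : q < 1) {k : E2}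
    (hk : ∀ n, k n = (q : ℂ) ^ (2 * n + 1)) (a : E2) :
    ⟪k, a⟫_ℂ = q * ev a ((q : ℂ) ^ 2) := by
  have hn : ‖(q : ℂ) ^ 2‖ < 1 := by
    rw [norm_pow, Complex.norm_real, Real.norm_eq_abs, abs_of_pos hq0]
    nlinarith
  have e1 := (h1.1 a _ hn).mul_left (q : ℂ)
  have e2 := lp.hasSum_inner (𝕜 := ℂ) k a
  refine e2.unique ?_
  have e3 : (fun i => ⟪k i, a i⟫_ℂ) = fun n => (q : ℂ) * (a n * ((q : ℂ) ^ 2) ^ n) := by
    funext n
    rw [inner_c, hk, map_pow, Complex.conj_ofReal]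
    ring
  rw [e3]
  exact e1

theorem summable_k {q : ℝ} (hq0 : 0 < q) (hq1 : q < 1) :
    Summable (fun n : ℕ => ‖(q : ℂ) ^ (2 * n + 1)‖ ^ 2) := by
  have h : (fun n : ℕ => ‖(q : ℂ) ^ (2 * n + 1)‖ ^ 2) = fun n => q ^ 2 * (q ^ 4) ^ n := by
    funext n
    rw [norm_pow, Complex.norm_real, Real.norm_eq_abs, abs_of_pos hq0]
    ring
  rw [h]
  refine (summable_geometric_of_lt_one (by positivity) ?_).mul_left _
  exact pow_lt_one₀ hq0.le hq1 (by norm_num)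

end Main

open Main in
/-- the theorem -/
theorem tMain (h1 : S_Ev) (h2 : S_Mem) (h3 : S_Wop) (h4 : S_Cnj) (h5 : S_Lbd) (h6 : S_Coef)
    (h7 : S_Gram) (h8 : S_Sym) (h9 : S_Real) : S_Main := by
  classical
  refine ⟨h2.1, h2.2.1, ?_⟩
  obtain ⟨s1, s2, s3, s4, s5, s6, s7, s8⟩ := h8
  obtain ⟨W, hW⟩ := h3 psi phi s1 s2 s3 s4 s5
  -- the kernel vectors
  have hk0 : ∀ q : I01, ∃ k : E2, ∀ n, k n = ((q : ℝ) : ℂ) ^ (2 * n + 1) := fun q =>
    h1.2.2.2.2 _ (summable_k q.2.1 q.2.2)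
  choose k hk using hk0
  -- the coefficients of `sin (γ L)`
  choose b hb using h6
  have hG : ∀ γ δ, HasSum (fun n => starRingEnd ℂ (b γ n) * b δ n) (GG γ δ : ℂ) := fun γ δ =>
    h7 γ δ (b γ) (b δ) (hb γ) (hb δ)
  have hsum : ∀ γ, Summable (fun n => ‖((1 / √2 : ℝ) : ℂ) * b γ n‖ ^ 2) := by
    intro γ
    have e1 := (hG γ γ).summable.norm.mul_left (‖((1 / √2 : ℝ) : ℂ)‖ ^ 2)
    refine e1.congr fun n => ?_
    rw [norm_mul, norm_mul, RCLike.norm_conj]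
    ring
  have hQ0 : ∀ q : I01, ∃ Q : E2, ∀ n, Q n = ((1 / √2 : ℝ) : ℂ) * b (ell q / π) n := fun q =>
    h1.2.2.2.2 _ (hsum _)
  choose Q hQ using hQ0
  -- the half step
  let σ : I01 → I01 := fun q => ⟨Ph q, (h9 q q.2.1 q.2.2).1, (h9 q q.2.1 q.2.2).2.1⟩
  -- inner products
  have hkk : ∀ p q : I01, ⟪k p, k q⟫_ℂ =
      (((q : ℝ) * p / (1 - ((q : ℝ) * p) ^ 2) : ℝ) : ℂ) := by
    intro p q
    refine (lp.hasSum_inner (𝕜 := ℂ) (k p) (k q)).unique ?_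
    have hq0 := q.2.1
    have hq1 := q.2.2
    have hp0 := p.2.1
    have hp1 := p.2.2
    have hlt : (q : ℝ) * p < 1 := by nlinarith
    have hpos : 0 < (q : ℝ) * p := mul_pos hq0 hp0
    have e1 : HasSum (fun n : ℕ => ((q : ℝ) * p) * (((q : ℝ) * p) ^ 2) ^ n)
        (((q : ℝ) * p) * (1 - ((q : ℝ) * p) ^ 2)⁻¹) :=
      (hasSum_geometric_of_lt_one (by positivity) (pow_lt_one₀ hpos.le hlt (by norm_num))).mul_left _
    have e2 := Complex.hasSum_ofReal.2 e1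
    rw [div_eq_mul_inv]
    have e3 : (fun i => ⟪k p i, k q i⟫_ℂ) =
        fun n : ℕ => ((((q : ℝ) * p) * (((q : ℝ) * p) ^ 2) ^ n : ℝ) : ℂ) := by
      funext n
      rw [inner_c, hk, hk, map_pow, Complex.conj_ofReal]
      push_cast
      ring
    rw [e3]
    exact e2
  have hkQ : ∀ p q : I01, ⟪k p, Q q⟫_ℂ =
      ((1 / √2 * Real.sin (ell q * ell p / π) : ℝ) : ℂ) := by
    intro p q
    refine (lp.hasSum_inner (𝕜 := ℂ) (k p) (Q q)).unique ?_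
    have hp : ‖((p : ℝ) : ℂ)‖ < 1 := by
      rw [Complex.norm_real, Real.norm_eq_abs, abs_of_pos p.2.1]
      exact p.2.2
    have e1 := (hb (ell q / π) _ hp).mul_left ((1 / √2 : ℝ) : ℂ)
    rw [h5.2.2.2.2.2.2 p p.2.1 p.2.2] at e1
    have e3 : (fun i => ⟪k p i, Q q i⟫_ℂ) = fun n : ℕ => ((1 / √2 : ℝ) : ℂ) *
        (b (ell q / π) n * ((p : ℝ) : ℂ) ^ (2 * n + 1)) := by
      funext n
      rw [inner_c, hk, hQ, map_pow, Complex.conj_ofReal]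
      ring
    rw [e3]
    have e4 : ((1 / √2 * Real.sin (ell q * ell p / π) : ℝ) : ℂ) =
        ((1 / √2 : ℝ) : ℂ) * Complex.sin (((ell q / π : ℝ) : ℂ) * (ell p : ℂ)) := by
      rw [← Complex.ofReal_mul, ← Complex.ofReal_sin, ← Complex.ofReal_mul,
        div_mul_eq_mul_div (ell (q : ℝ))]
    rw [e4]
    exact e1
  have hQk : ∀ p q : I01, ⟪Q q, k p⟫_ℂ =
      ((1 / √2 * Real.sin (ell q * ell p / π) : ℝ) : ℂ) := by
    intro p q
    rw [← inner_conj_symm, hkQ, Complex.conj_ofReal]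
  have hQQ : ∀ p q : I01, ⟪Q p, Q q⟫_ℂ =
      (((q : ℝ) * p / (1 - ((q : ℝ) * p) ^ 2) : ℝ) : ℂ) := by
    intro p q
    refine (lp.hasSum_inner (𝕜 := ℂ) (Q p) (Q q)).unique ?_
    have e1 := (hG (ell p / π) (ell q / π)).mul_left ((1 / 2 : ℝ) : ℂ)
    rw [(h9 p p.2.1 p.2.2).2.2.2.2.2 q q.2.1 q.2.2] at e1
    have hs : (1 / √2 : ℝ) * (1 / √2) = 1 / 2 := by
      rw [div_mul_div_comm, one_mul, Real.mul_self_sqrt (by norm_num)]
    have e3 : (fun i => ⟪Q p i, Q q i⟫_ℂ) = fun n : ℕ => ((1 / 2 : ℝ) : ℂ) *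
        (starRingEnd ℂ (b (ell p / π) n) * b (ell q / π) n) := by
      funext n
      rw [inner_c, hQ, hQ, map_mul, Complex.conj_ofReal, ← hs, Complex.ofReal_mul]
      ring
    rw [e3]
    have e4 : (((q : ℝ) * p / (1 - ((q : ℝ) * p) ^ 2) : ℝ) : ℂ) =
        ((1 / 2 : ℝ) : ℂ) * ((2 * ((p : ℝ) * q) / (1 - ((p : ℝ) * q) ^ 2) : ℝ) : ℂ) := by
      rw [← Complex.ofReal_mul]
      refine congrArg _ ?_
      rw [mul_comm (q : ℝ) p]
      ring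
    rw [e4]
    exact e1
  -- the kernel vectors are total
  have htot : ∀ a : E2, (∀ i, ⟪k i, a⟫_ℂ = 0) → a = 0 := by
    intro a ha
    refine h1.2.2.1 a fun t ht0 ht1 => ?_
    have hs0 : 0 < √t := Real.sqrt_pos.2 ht0
    have hs1 : √t < 1 := by
      rw [Real.sqrt_lt' one_pos]
      simpa using ht1
    have e1 := ha ⟨√t, hs0, hs1⟩
    rw [inner_k h1 hs0 hs1 (hk ⟨√t, hs0, hs1⟩)] at e1
    rcases mul_eq_zero.1 e1 with e2 | e2
    · exact absurd (Complex.ofReal_eq_zero.1 e2) hs0.ne'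
    · rw [← Complex.ofReal_pow, Real.sq_sqrt ht0.le] at e2
      exact e2
  -- the adjoint of `W` on the kernel vectors
  have hWk : ∀ (i : I01) (a : E2), ⟪k i, W a⟫_ℂ = ⟪k (σ i), a⟫_ℂ := by
    intro q a
    have h := h9 q q.2.1 q.2.2
    rw [inner_k h1 q.2.1 q.2.2 (hk q), inner_k h1 (σ q).2.1 (σ q).2.2 (hk (σ q))]
    have hn : ‖((q : ℝ) : ℂ) ^ 2‖ < 1 := by
      rw [norm_pow, Complex.norm_real, Real.norm_eq_abs, abs_of_pos q.2.1]
      have := q.2.1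
      have := q.2.2
      nlinarith
    rw [hW a _ hn, h.2.2.1, ← mul_assoc, h.2.2.2.1]
  have hWQ : ∀ i, W (Q i) = Q (σ i) := by
    intro q
    rw [← sub_eq_zero]
    refine htot _ fun p => ?_
    rw [inner_sub_right, hWk, hkQ, hkQ]
    have e1 : ell (σ p) = ell p / 2 := (h9 p p.2.1 p.2.2).2.2.2.2.1
    have e2 : ell (σ q) = ell q / 2 := (h9 q q.2.1 q.2.2).2.2.2.2.1
    rw [e1, e2, show ell (q : ℝ) * (ell (p : ℝ) / 2) / π = ell (q : ℝ) / 2 * ell (p : ℝ) / π by ring,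
      sub_self]
  obtain ⟨C, hC1, hC2⟩ := h4 I01 k Q σ W htot
    (fun i j => by rw [hQQ, hkk, mul_comm (j : ℝ) i])
    (fun i j => by rw [hQk, hQk, mul_comm (ell (i : ℝ))]) hWk hWQ
  refine ⟨psi, phi, W, C, s1, s2, fun z hz => ?_, fun a z hz => ?_, hC1, hC2, ⟨0, ?_, s6⟩,
    ⟨0, ?_, 3 / 4, ?_, ?_⟩, ?_⟩
  · rw [mem_ball_zero_iff] at hz ⊢
    exact s4 z hz
  · exact hW a z (mem_ball_zero_iff.1 hz)
  · exact Metric.mem_ball_self one_pos
  · exact Metric.mem_ball_self one_pos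
  · rw [mem_ball_zero_iff]
    norm_num
  · rw [s5, s7]
    norm_num
  · rintro ⟨a, b', c, d, h, h'⟩
    exact s8 ⟨a, b', c, d, h, fun z hz => h' z (mem_ball_zero_iff.2 hz)⟩

end Pool.Agent.MPd61
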