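import Pool.Agent.Lib.MP_d61ac0_an.Spec

/-!
# MP_d61ac0_an, MEM: the isometry of the sequence space onto the Hardy space
-/

set_option autoImplicit false

namespace Pool.Agent.MPd61

open scoped Real InnerProductSpace Topology
open Filter Set

namespace MemB

theorem taylor {f : ℂ → ℂ} (hf : DifferentiableOn ℂ f (Metric.ball 0 1)) :
    ∃ c : ℕ → ℂ, ∀ z : ℂ, ‖z‖ < 1 → HasSum (fun n => c n * z ^ n) (f z) := by
  refine ⟨fun n => ((n.factorial : ℂ))⁻¹ * iteratedDeriv n f 0, fun w hw => ?_⟩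
  have h2 := Complex.hasSum_taylorSeries_on_ball hf (z := w) (by simpa using hw)
  refine h2.congr_fun ?_
  intro n
  simp only [sub_zero, smul_eq_mul]
  ring

theorem mean_sum (h1 : S_Pars) {c : ℕ → ℂ} {f : ℂ → ℂ}
    (hc : ∀ z : ℂ, ‖z‖ < 1 → HasSum (fun n => c n * z ^ n) (f z)) {r : ℝ} (hr0 : 0 < r)
    (hr1 : r < 1) : HasSum (fun n => ‖c n‖ ^ 2 * r ^ (2 * n)) (mean f r) := by
  have h := h1 c c f f hc hc r hr0 hr1
  rw [← Complex.hasSum_ofReal]
  have e1 : ((mean f r : ℝ) : ℂ) = ((2 * π : ℝ) : ℂ)⁻¹ * ∫ θ in (0 : ℝ)..(2 * π),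
      starRingEnd ℂ (f (r * Complex.exp (θ * Complex.I))) *
        f (r * Complex.exp (θ * Complex.I)) := by
    unfold mean
    rw [Complex.ofReal_mul, Complex.ofReal_inv, ← intervalIntegral.integral_ofReal]
    congr 1
    refine intervalIntegral.integral_congr fun θ _ => ?_
    show _ = _
    rw [Complex.conj_mul', Complex.ofReal_pow]
  rw [e1]
  refine h.congr_fun fun n => ?_
  rw [Complex.conj_mul']
  push_cast
  ring

theorem part_le (h1 : S_Pars) {c : ℕ → ℂ} {f : ℂ → ℂ}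
    (hc : ∀ z : ℂ, ‖z‖ < 1 → HasSum (fun n => c n * z ^ n) (f z)) {B : ℝ}
    (hB : ∀ r : ℝ, 0 < r → r < 1 → mean f r ≤ B) (N : ℕ) :
    ∑ n ∈ Finset.range N, ‖c n‖ ^ 2 ≤ B := by
  have ht : Tendsto (fun r : ℝ => ∑ n ∈ Finset.range N, ‖c n‖ ^ 2 * r ^ (2 * n)) (𝓝[<] 1)
      (𝓝 (∑ n ∈ Finset.range N, ‖c n‖ ^ 2 * 1 ^ (2 * n))) := by
    refine Tendsto.mono_left (Continuous.tendsto ?_ 1) nhdsWithin_le_nhds
    fun_prop
  have hs : ∑ n ∈ Finset.range N, ‖c n‖ ^ 2 * (1 : ℝ) ^ (2 * n) =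
      ∑ n ∈ Finset.range N, ‖c n‖ ^ 2 := by
    refine Finset.sum_congr rfl fun n _ => ?_
    rw [one_pow, mul_one]
  rw [hs] at ht
  refine le_of_tendsto ht ?_
  have hI : Ioo (0 : ℝ) 1 ∈ 𝓝[<] (1 : ℝ) := Ioo_mem_nhdsLT one_pos
  filter_upwards [hI] with r hr
  exact (sum_le_hasSum _ (fun _ _ => by
    have := hr.1
    positivity) (mean_sum h1 hc hr.1 hr.2)).trans (hB r hr.1 hr.2)

end MemB

open MemB in
/-- MEM -/
theorem tMemB (h1 : S_Pars) (h2 : S_Ev) : S_Mem := by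
  obtain ⟨v1, v2, v3, v4, v5⟩ := h2
  have hup : ∀ (a : E2) (r : ℝ), 0 < r → r < 1 → mean (ev a) r ≤ ‖a‖ ^ 2 := by
    intro a r hr0 hr1
    refine hasSum_le (fun n => ?_) (mean_sum h1 (v1 a) hr0 hr1) (v4 a)
    exact mul_le_of_le_one_right (by positivity) (pow_le_one₀ hr0.le hr1.le)
  refine ⟨fun f => ⟨?_, ?_⟩, fun a => ⟨?_, fun B hB => ?_⟩, fun f hf r hr0 hr1 => ?_⟩
  · rintro ⟨hd, B, hB⟩
    obtain ⟨c, hc⟩ := taylor hd
    have hs : Summable fun n => ‖c n‖ ^ 2 :=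
      summable_of_sum_range_le (fun n => by positivity) (part_le h1 hc hB)
    obtain ⟨a, ha⟩ := v5 c hs
    refine ⟨a, fun z hz => ?_⟩
    have hz' := mem_ball_zero_iff.1 hz
    refine (hc z hz').unique ((v1 a z hz').congr_fun fun n => ?_)
    rw [ha]
  · rintro ⟨a, ha⟩
    refine ⟨(v2 a).congr ha, ‖a‖ ^ 2, fun r hr0 hr1 => ?_⟩
    refine le_of_eq_of_le ?_ (hup a r hr0 hr1)
    unfold mean
    congr 1
    refine intervalIntegral.integral_congr fun θ _ => ?_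
    show ‖f _‖ ^ 2 = ‖ev a _‖ ^ 2
    rw [ha]
    rw [mem_ball_zero_iff, norm_mul, Complex.norm_exp_ofReal_mul_I, mul_one, Complex.norm_real,
      Real.norm_eq_abs, abs_of_pos hr0]
    exact hr1
  · rintro _ ⟨r, ⟨hr0, hr1⟩, rfl⟩
    exact hup a r hr0 hr1
  · refine le_of_tendsto' (v4 a).tendsto_sum_nat fun N => ?_
    exact part_le h1 (v1 a) (fun r hr0 hr1 => hB ⟨r, ⟨hr0, hr1⟩, rfl⟩) N
  · obtain ⟨c, hc⟩ := taylor hf
    have h0 : c 0 = f 0 := by
      have e1 := hc 0 (by rw [norm_zero]; exact one_pos)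
      have e2 : HasSum (fun n => c n * (0 : ℂ) ^ n) (c 0 * 0 ^ 0) :=
        hasSum_single 0 fun n hn => by rw [zero_pow hn, mul_zero]
      rw [pow_zero, mul_one] at e2
      exact e2.unique e1
    have hc' : ∀ z : ℂ, ‖z‖ < 1 →
        HasSum (fun n => (if n = 0 then 0 else c n) * z ^ n) (f z - f 0) := by
      intro z hz
      have e1 : HasSum (fun n => if n = 0 then f 0 else 0) (f 0) := hasSum_ite_eq 0 (f 0)
      refine ((hc z hz).sub e1).congr_fun fun n => ?_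
      by_cases hn : n = 0
      · subst hn
        rw [if_pos rfl, if_pos rfl, h0, pow_zero, mul_one, mul_one, sub_self]
      · rw [if_neg hn, if_neg hn, sub_zero]
    have e1 := mean_sum h1 hc hr0 hr1
    have e2 := mean_sum h1 hc' hr0 hr1
    have e3 : HasSum (fun n => if n = 0 then ‖f 0‖ ^ 2 else 0) (‖f 0‖ ^ 2) :=
      hasSum_ite_eq 0 (‖f 0‖ ^ 2)
    refine e1.unique ((e3.add e2).congr_fun fun n => ?_)
    by_cases hn : n = 0
    · subst hn
      rw [if_pos rfl, if_pos rfl, h0]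
      simp
    · rw [if_neg hn, if_neg hn, zero_add]

end Pool.Agent.MPd61
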