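import Pool.Agent.Lib.MP_d61ac0_an.Spec

/-!
# MP_d61ac0_an, module Pars: Parseval on a circle (helper5)
-/

set_option autoImplicit false

namespace Pool.Agent.MPd61

open scoped Real InnerProductSpace Topology

open MeasureTheory

/-- Integral of an exponential over the period. -/
private theorem pars_int (k : ℤ) :
    ∫ θ in (0 : ℝ)..(2 * π), Complex.exp ((k : ℂ) * Complex.I * θ) =
      if k = 0 then ((2 * π : ℝ) : ℂ) else 0 := by
  by_cases hk : k = 0
  · subst hk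
    simp
  · rw [if_neg hk, integral_exp_mul_complex (mul_ne_zero (Int.cast_ne_zero.2 hk) Complex.I_ne_zero)]
    have h1 : Complex.exp ((k : ℂ) * Complex.I * ((2 * π : ℝ) : ℂ)) = 1 := by
      rw [← Complex.exp_int_mul_two_pi_mul_I k]
      congr 1
      push_cast
      ring
    rw [h1]
    simp

private theorem pars_term (c d : ℂ) (n m : ℕ) (r θ : ℝ) :
    starRingEnd ℂ (c * (r * Complex.exp (θ * Complex.I)) ^ n) *
      (d * (r * Complex.exp (θ * Complex.I)) ^ m) =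
    starRingEnd ℂ c * d * (r : ℂ) ^ (n + m) *
      Complex.exp ((((m : ℤ) - (n : ℤ) : ℤ) : ℂ) * Complex.I * θ) := by
  rw [map_mul, map_pow, map_mul, Complex.conj_ofReal, ← Complex.exp_conj, map_mul,
    Complex.conj_ofReal, Complex.conj_I, mul_pow, mul_pow, ← Complex.exp_nat_mul,
    ← Complex.exp_nat_mul]
  have h1 : Complex.exp ((((m : ℤ) - (n : ℤ) : ℤ) : ℂ) * Complex.I * θ) =
      Complex.exp ((n : ℂ) * (θ * -Complex.I)) * Complex.exp ((m : ℂ) * (θ * Complex.I)) := by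
    rw [← Complex.exp_add]
    congr 1
    push_cast
    ring
  rw [h1, pow_add]
  ring

private theorem pars_mul (c d : ℕ → ℂ) (E s t : ℂ) (h1 : HasSum (fun n => c n * E ^ n) s)
    (h2 : HasSum (fun n => d n * E ^ n) t)
    (h3 : Summable fun x : ℕ × ℕ => (‖c x.1‖ * ‖E‖ ^ x.1) * (‖d x.2‖ * ‖E‖ ^ x.2)) :
    HasSum (fun x : ℕ × ℕ => starRingEnd ℂ (c x.1 * E ^ x.1) * (d x.2 * E ^ x.2))
      (starRingEnd ℂ s * t) := by
  obtain ⟨u, hu⟩ : ∃ u : ℕ → ℂ, u = fun n => starRingEnd ℂ (c n * E ^ n) := ⟨_, rfl⟩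
  obtain ⟨v, hv⟩ : ∃ v : ℕ → ℂ, v = fun n => d n * E ^ n := ⟨_, rfl⟩
  have h4 : HasSum u (starRingEnd ℂ s) := by
    rw [hu]
    exact (Complex.hasSum_conj').2 h1
  have h5 : HasSum v t := by
    rw [hv]
    exact h2
  have h6 : Summable fun x : ℕ × ℕ => u x.1 * v x.2 := by
    refine Summable.of_norm (h3.congr fun x => ?_)
    rw [hu, hv, norm_mul, RCLike.norm_conj, norm_mul, norm_mul, norm_pow, norm_pow]
  have h7 := h4.mul h5 h6
  rw [hu, hv] at h7
  exact h7

theorem tPars : S_Pars := by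
  intro c d f g hf hg r hr0 hr1
  have hE : ∀ θ : ℝ, ‖(r : ℂ) * Complex.exp (θ * Complex.I)‖ = r := by
    intro θ
    rw [norm_mul, Complex.norm_exp_ofReal_mul_I, mul_one, Complex.norm_real, Real.norm_eq_abs,
      abs_of_pos hr0]
  have hrn : ‖(r : ℂ)‖ < 1 := by
    rw [Complex.norm_real, Real.norm_eq_abs, abs_of_pos hr0]
    exact hr1
  have hcs : Summable fun n => ‖c n‖ * r ^ n := by
    have h1 := (hf r hrn).summable.norm
    refine h1.congr fun n => ?_
    rw [norm_mul, norm_pow, Complex.norm_real, Real.norm_eq_abs, abs_of_pos hr0]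
  have hds : Summable fun n => ‖d n‖ * r ^ n := by
    have h1 := (hg r hrn).summable.norm
    refine h1.congr fun n => ?_
    rw [norm_mul, norm_pow, Complex.norm_real, Real.norm_eq_abs, abs_of_pos hr0]
  have hcd : Summable fun x : ℕ × ℕ => (‖c x.1‖ * r ^ x.1) * (‖d x.2‖ * r ^ x.2) :=
    hcs.mul_of_nonneg hds (fun n => by positivity) (fun n => by positivity)
  let F : ℕ × ℕ → ℝ → ℂ := fun x θ =>
    starRingEnd ℂ (c x.1 * (r * Complex.exp (θ * Complex.I)) ^ x.1) *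
      (d x.2 * (r * Complex.exp (θ * Complex.I)) ^ x.2)
  have hFn : ∀ x θ, ‖F x θ‖ = (‖c x.1‖ * r ^ x.1) * (‖d x.2‖ * r ^ x.2) := by
    intro x θ
    change ‖starRingEnd ℂ (c x.1 * (r * Complex.exp (θ * Complex.I)) ^ x.1) *
      (d x.2 * (r * Complex.exp (θ * Complex.I)) ^ x.2)‖ = _
    rw [norm_mul, RCLike.norm_conj, norm_mul, norm_mul, norm_pow, norm_pow, hE]
  have hFs : ∀ θ : ℝ, HasSum (fun x => F x θ)
      (starRingEnd ℂ (f (r * Complex.exp (θ * Complex.I))) *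
        g (r * Complex.exp (θ * Complex.I))) := by
    intro θ
    have hlt : ‖(r : ℂ) * Complex.exp (θ * Complex.I)‖ < 1 := by rw [hE]; exact hr1
    exact pars_mul c d _ _ _ (hf _ hlt) (hg _ hlt) (by rw [hE]; exact hcd)
  have hFc : ∀ x, Continuous (F x) := by
    intro x
    change Continuous fun θ : ℝ =>
      starRingEnd ℂ (c x.1 * (r * Complex.exp (θ * Complex.I)) ^ x.1) *
      (d x.2 * (r * Complex.exp (θ * Complex.I)) ^ x.2)
    fun_prop
  have hint := intervalIntegral.hasSum_integral_of_dominated_convergence (a := 0) (b := 2 * π)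
    (μ := volume) (F := F) (fun x _ => (‖c x.1‖ * r ^ x.1) * (‖d x.2‖ * r ^ x.2))
    (f := fun θ : ℝ => starRingEnd ℂ (f (r * Complex.exp (θ * Complex.I))) *
        g (r * Complex.exp (θ * Complex.I)))
    (fun x => (hFc x).aestronglyMeasurable)
    (fun x => Filter.Eventually.of_forall fun θ _ => (hFn x θ).le)
    (Filter.Eventually.of_forall fun θ _ => hcd)
    intervalIntegrable_const
    (Filter.Eventually.of_forall fun θ _ => hFs θ)
  have hval : ∀ x : ℕ × ℕ, ∫ θ in (0 : ℝ)..(2 * π), F x θ =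
      if x.1 = x.2 then ((2 * π : ℝ) : ℂ) * (starRingEnd ℂ (c x.1) * d x.2 *
        (r : ℂ) ^ (x.1 + x.2)) else 0 := by
    intro x
    have h1 : ∀ θ : ℝ, F x θ = starRingEnd ℂ (c x.1) * d x.2 * (r : ℂ) ^ (x.1 + x.2) *
      Complex.exp ((((x.2 : ℤ) - (x.1 : ℤ) : ℤ) : ℂ) * Complex.I * θ) := fun θ =>
      pars_term _ _ _ _ _ _
    simp only [h1]
    rw [intervalIntegral.integral_const_mul, pars_int]
    by_cases hx : x.1 = x.2
    · rw [if_pos hx, if_pos (by rw [hx, sub_self]), mul_comm]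
    · rw [if_neg hx, if_neg (fun hh => hx (by omega)), mul_zero]
  have h1 := hint.mul_left (((2 * π : ℝ) : ℂ)⁻¹)
  have hinj : Function.Injective (fun n : ℕ => (n, n)) := fun a b hab => (Prod.ext_iff.1 hab).1
  have h2 := (hinj.hasSum_iff (f := fun x : ℕ × ℕ => ((2 * π : ℝ) : ℂ)⁻¹ *
    ∫ θ in (0 : ℝ)..(2 * π), F x θ) (a := ((2 * π : ℝ) : ℂ)⁻¹ * ∫ θ in (0 : ℝ)..(2 * π),
      starRingEnd ℂ (f (r * Complex.exp (θ * Complex.I))) *
        g (r * Complex.exp (θ * Complex.I))) (by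
      intro x hx
      rw [hval, if_neg, mul_zero]
      intro hh
      exact hx ⟨x.1, Prod.ext rfl hh⟩)).2 h1
  have h3 : (fun n => starRingEnd ℂ (c n) * d n * (r : ℂ) ^ (2 * n)) =
      (fun x : ℕ × ℕ => ((2 * π : ℝ) : ℂ)⁻¹ * ∫ θ in (0 : ℝ)..(2 * π), F x θ) ∘
        fun n : ℕ => (n, n) := by
    funext n
    rw [Function.comp_apply, hval, if_pos rfl, inv_mul_cancel_left₀, two_mul]
    exact Complex.ofReal_ne_zero.2 (by positivity)
  rw [h3]
  exact h2

end Pool.Agent.MPd61
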