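import Pool.Agent.Lib.MP_d61ac0_an.Spec

/-!
# MP_d61ac0_an: real identities (statement S_Real)
-/

set_option autoImplicit false

namespace Pool.Agent.MPd61

open scoped Real

private theorem RealP_rt_val (s : ℝ) (hs : 0 < s) (z : ℂ) (hz : z = 1 - (s : ℂ) ^ 2) :
    rt z = s := by
  unfold rt
  have h1 : (1 : ℂ) - z = ((s ^ 2 : ℝ) : ℂ) := by rw [hz]; push_cast; ring
  rw [h1, ← Complex.ofReal_log (by positivity), Real.log_pow]
  have h2 : ((((2 : ℕ) : ℝ) * Real.log s : ℝ) : ℂ) / 2 = ((Real.log s : ℝ) : ℂ) := by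
    push_cast
    ring
  rw [h2, ← Complex.ofReal_exp, Real.exp_log hs]

private theorem RealP_sinh (q : ℝ) (h0 : 0 < q) (h1 : q < 1) :
    Real.sinh (ell q) = 2 * q / (1 - q ^ 2) ∧ Real.cosh (ell q) = (1 + q ^ 2) / (1 - q ^ 2) := by
  have hx : 0 < (1 + q) / (1 - q) := div_pos (by linarith) (by linarith)
  have ha : (1 + q) ≠ 0 := by linarith
  have hb : (1 - q) ≠ 0 := by linarith
  have hc : (1 - q ^ 2) ≠ 0 := by nlinarith
  unfold ell
  constructor
  · rw [Real.sinh_log hx]
    rw [inv_div]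
    field_simp
    ring
  · rw [Real.cosh_log hx]
    rw [inv_div]
    field_simp
    ring

/-- REAL: real identities. -/
theorem tReal : S_Real := by
  intro q h0 h1
  set r := √(1 - q ^ 2) with hr
  have hq2 : 0 < 1 - q ^ 2 := by nlinarith
  have hr0 : 0 < r := Real.sqrt_pos.mpr hq2
  have hr2 : r ^ 2 = 1 - q ^ 2 := Real.sq_sqrt hq2.le
  have hPh : Ph q = q / (1 + r) := rfl
  have hP0 : 0 < Ph q := by rw [hPh]; exact div_pos h0 (by linarith)
  have hP1 : Ph q < 1 := by
    rw [hPh, div_lt_one (by linarith)]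
    linarith
  have hrt : rt ((q : ℂ) ^ 2) = (r : ℂ) := by
    apply RealP_rt_val r hr0
    have h2 : ((r ^ 2 : ℝ) : ℂ) = ((1 - q ^ 2 : ℝ) : ℂ) := by rw [hr2]
    push_cast at h2
    rw [h2]
    ring
  have h1r : (1 + r) ≠ 0 := by linarith
  have h1rc : (1 + (r : ℂ)) ≠ 0 := by exact_mod_cast h1r
  refine ⟨hP0, hP1, ?_, ?_, ?_, ?_⟩
  · unfold phi
    rw [hrt, hPh]
    push_cast
    rw [div_pow]
  · unfold psi
    rw [hrt, hPh]
    push_cast
    rw [div_eq_mul_inv]
  · have hx : (1 + Ph q) / (1 - Ph q) = (1 + r + q) / (1 + r - q) := by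
      rw [hPh]
      have h2 : 1 - q / (1 + r) = (1 + r - q) / (1 + r) := by field_simp
      have h3 : 1 + q / (1 + r) = (1 + r + q) / (1 + r) := by field_simp
      rw [h2, h3, div_div_div_cancel_right₀ h1r]
    have hd : 0 < 1 + r - q := by linarith
    have hn : 0 < 1 + r + q := by linarith
    have hsq : ((1 + Ph q) / (1 - Ph q)) ^ 2 = (1 + q) / (1 - q) := by
      rw [hx, div_pow, div_eq_div_iff (by positivity) (by linarith)]
      linear_combination ((1 - q) - (1 + q)) * hr2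
    unfold ell
    rw [← hsq, Real.log_pow]
    push_cast
    ring
  · intro p hp0 hp1
    obtain ⟨s1, c1⟩ := RealP_sinh q h0 h1
    obtain ⟨s2, c2⟩ := RealP_sinh p hp0 hp1
    unfold GG
    have e1 : π * (ell q / π) = ell q := by field_simp
    have e2 : π * (ell p / π) = ell p := by field_simp
    rw [e1, e2, s1, s2, c1, c2]
    have hp2 : 0 < 1 - p ^ 2 := by nlinarith
    have hqp : 0 < 1 - (q * p) ^ 2 := by
      have : q * p < 1 := by nlinarith
      have h3 : 0 < q * p := mul_pos h0 hp0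
      nlinarith
    have hsum : (1 + q ^ 2) / (1 - q ^ 2) + (1 + p ^ 2) / (1 - p ^ 2) =
        2 * (1 - (q * p) ^ 2) / ((1 - q ^ 2) * (1 - p ^ 2)) := by
      rw [div_add_div _ _ hq2.ne' hp2.ne']
      congr 1
      ring
    rw [hsum, div_mul_div_comm, div_div_div_cancel_right₀ (mul_pos hq2 hp2).ne']
    rw [div_eq_div_iff (by positivity) hqp.ne']
    ring

end Pool.Agent.MPd61
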