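import Pool.Agent.Lib.MP_d61ac0_an.Defs

/-!
# MP_d61ac0_an: a complex symmetric weighted composition operator with a symbol that is not linear
fractional (helper51)

`W f = ψ · (f ∘ φ)` on the Hardy space, `ψ = 1 / (1 + √(1 - z))`, `φ = z / (1 + √(1 - z)) ^ 2`.
`E2 = ℓ²` is the space of Taylor coefficients, `ev a z = ∑ a n * z ^ n`. Every statement below is a
`Prop`; its docstring is a complete proof. All modules are independent of each other: a statement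
named after the word uses is a hypothesis of the theorem.
-/

set_option autoImplicit false

namespace Pool.Agent.MPd61

open scoped Real InnerProductSpace Topology

/-- `√(1 - z)`, principal branch -/
noncomputable def rt (z : ℂ) : ℂ := Complex.exp (Complex.log (1 - z) / 2)

/-- the weight -/
noncomputable def psi (z : ℂ) : ℂ := (1 + rt z)⁻¹

/-- the symbol -/
noncomputable def phi (z : ℂ) : ℂ := z / (1 + rt z) ^ 2

/-- `log ((1 + w) / (1 - w))`: the disk onto the strip `|Im| < π / 2` -/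
noncomputable def L (w : ℂ) : ℂ := Complex.log (1 + w) - Complex.log (1 - w)

/-- `L` on the real interval `(0, 1)` -/
noncomputable def ell (q : ℝ) : ℝ := Real.log ((1 + q) / (1 - q))

/-- the half step `tanh (artanh q / 2)` on the real interval -/
noncomputable def Ph (q : ℝ) : ℝ := q / (1 + √(1 - q ^ 2))

/-- the value of the boundary integral -/
noncomputable def GG (γ δ : ℝ) : ℝ :=
  Real.sinh (π * γ) * Real.sinh (π * δ) / (Real.cosh (π * γ) + Real.cosh (π * δ))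

/-- PARS. Parseval on the circle of radius `r`. PROOF. `∑ ‖c n‖ r^n < ∞`, `∑ ‖d n‖ r^n < ∞` (a
`HasSum` in `ℂ` is absolute). For fixed `n`: `(2π)⁻¹ ∫ conj (e^{inθ}) g(re^{iθ}) dθ = d n r^n`
(termwise integration of the series of `g`, `∫_0^{2π} e^{i(m-n)θ} = 2π δ_mn`; termwise:
`intervalIntegral.hasSum_integral_of_dominated_convergence` or
`intervalIntegral.hasSum_integral_of_summable_norm`). Then termwise integration of
`conj f(re^{iθ}) g(re^{iθ}) = ∑_n conj (c n) r^n e^{-inθ} g(re^{iθ})`, `g` bounded on the circle by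
`∑ ‖d m‖ r^m`. -/
def S_Pars : Prop := ∀ (c d : ℕ → ℂ) (f g : ℂ → ℂ),
  (∀ z : ℂ, ‖z‖ < 1 → HasSum (fun n => c n * z ^ n) (f z)) →
  (∀ z : ℂ, ‖z‖ < 1 → HasSum (fun n => d n * z ^ n) (g z)) →
  ∀ r : ℝ, 0 < r → r < 1 →
  HasSum (fun n => starRingEnd ℂ (c n) * d n * (r : ℂ) ^ (2 * n))
    (((2 * π : ℝ) : ℂ)⁻¹ * ∫ θ in (0 : ℝ)..(2 * π),
      starRingEnd ℂ (f (r * Complex.exp (θ * Complex.I))) *
        g (r * Complex.exp (θ * Complex.I)))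

/-- EV. Elementary facts on `ev` and `E2`. PROOF. (1) `a n` is bounded by `‖a‖`
(`lp.norm_apply_le_norm`), compare with a geometric series. (2) a power series is differentiable on
its disk (`HasFPowerSeriesOnBall.differentiableOn`, or `differentiableOn_tsum_of_summable_norm`).
(3) the identity theorem: a power series that vanishes on `(0, 1)` (or on a sequence tending to `0`)
vanishes: `AnalyticAt.eventually_eq_zero_or_eventually_ne_zero`, or directly: the first nonzero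
coefficient `a m`: `a m = lim (ev a t) / t^m` as `t → 0`. (4) `‖a‖ ^ 2 = ∑ ‖a n‖ ^ 2`
(`lp.norm_rpow_eq_tsum` / `lp.norm_sq_eq_of_L2`...). (5) conversely square summable sequences are
elements (`memℓp_gen`). -/
def S_Ev : Prop :=
  (∀ (a : E2) (z : ℂ), ‖z‖ < 1 → HasSum (fun n => a n * z ^ n) (ev a z)) ∧
  (∀ a : E2, DifferentiableOn ℂ (ev a) (Metric.ball 0 1)) ∧
  (∀ a : E2, (∀ t : ℝ, 0 < t → t < 1 → ev a t = 0) → a = 0) ∧
  (∀ a : E2, HasSum (fun n => ‖a n‖ ^ 2) (‖a‖ ^ 2)) ∧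
  (∀ c : ℕ → ℂ, Summable (fun n => ‖c n‖ ^ 2) → ∃ a : E2, ∀ n, a n = c n)

/-- MEM. `ev` is an isometry of `E2` onto the Hardy space. uses S_Pars, S_Ev. PROOF. `S_Pars` with
`f = g` gives `mean f r = ∑ ‖c n‖² r^(2n)` for every `f` holomorphic on the disk with Taylor
coefficients `c` (`DifferentiableOn` on a ball: `DifferentiableOn.hasFPowerSeriesOnBall`, or
`Complex.hasSum_taylorSeries_on_ball`). Bounded means give `∑_{n<N} ‖c n‖² r^(2n) ≤ B`, let `r → 1`: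
square summable. `IsLUB`: upper bound since `r^(2n) ≤ 1`; least: for an upper bound `B`, finite
partial sums again, `r → 1`. Third part: a bound for the means is a bound for the norm. -/
def S_Mem : Prop :=
  (∀ f : ℂ → ℂ, MemH2 f ↔ ∃ a : E2, ∀ z ∈ Metric.ball (0 : ℂ) 1, f z = ev a z) ∧
  (∀ a : E2, IsLUB (mean (ev a) '' Set.Ioo 0 1) (‖a‖ ^ 2)) ∧
  (∀ f : ℂ → ℂ, DifferentiableOn ℂ f (Metric.ball 0 1) → ∀ r : ℝ, 0 < r → r < 1 →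
    mean f r = ‖f 0‖ ^ 2 + mean (fun z => f z - f 0) r)

/-- WOP. Bounded weighted composition operators (Littlewood). uses S_Ev, S_Mem. PROOF. (A)
(polynomials) for `N` and `a : ℕ → ℂ`, `p z = ∑_{k<N} a k z^k`: `mean (p ∘ φ) r ≤ ∑_{k<N} ‖a k‖²` by
induction on `N`: `p z = a 0 + z p1 z`, `p ∘ φ - (p ∘ φ) 0 = φ · (p1 ∘ φ)` because `φ 0 = 0`, so by
the third part of `S_Mem`: `mean (p ∘ φ) r = ‖a 0‖² + mean (φ · (p1 ∘ φ)) r ≤ ‖a 0‖² +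
mean (p1 ∘ φ) r`. (B) `f = ev a`: on the circle of radius `r` we have `‖φ‖ ≤ r` (Schwarz:
`Complex.norm_le_norm_of_mapsTo_ball`), the partial sums `f_N ∘ φ` converge to `f ∘ φ` and are bounded by
`∑ ‖a k‖ r^k`, dominated convergence: `mean (f ∘ φ) r ≤ ‖a‖²`, and `mean (ψ · (f ∘ φ)) r ≤ ‖a‖²`.
(C) so `ψ · (f ∘ φ) ∈ H²`, it is `ev b` on the disk with `‖b‖² ≤ ‖a‖²` (`IsLUB`), `b` is unique (third
part of `S_Ev`), `a ↦ b` is linear: `LinearMap.mkContinuous`. -/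
def S_Wop : Prop := ∀ ψ φ : ℂ → ℂ,
  DifferentiableOn ℂ ψ (Metric.ball 0 1) → DifferentiableOn ℂ φ (Metric.ball 0 1) →
  (∀ z : ℂ, ‖z‖ < 1 → ‖ψ z‖ ≤ 1) → (∀ z : ℂ, ‖z‖ < 1 → ‖φ z‖ < 1) → φ 0 = 0 →
  ∃ W : E2 →L[ℂ] E2, ∀ (a : E2) (z : ℂ), ‖z‖ < 1 → ev (W a) z = ψ z * ev a (φ z)

/-- CNJ. Construction of the conjugation. PROOF. `e : (ι →₀ ℂ) → E2`, `e c = ∑ c i • k i` (linear),
`f c = ∑ conj (c i) • Q i` (conjugate linear); `‖f c‖ = ‖e c‖` by the second hypothesis; `e` has dense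
range by the first (`Submodule.topologicalClosure`, orthogonal complement zero:
`Submodule.dense_iff_topologicalClosure_eq_top`, `Submodule.topologicalClosure_eq_top_iff`); extend:
`LinearMap.extendOfNorm` (semilinear, `Mathlib.Analysis.Normed.Operator.Extend`) gives a continuous
conjugate linear `C` with `C (k i) = Q i`, `‖C x‖ = ‖x‖` (density). So `⟪C x, C y⟫ = ⟪y, x⟫`
(polarization, or density from the second hypothesis) and `⟪C x, y⟫ = ⟪C y, x⟫` (density from the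
third hypothesis), hence `⟪C (C x), y⟫ = ⟪C y, C x⟫ = ⟪x, y⟫` and `C (C x) = x`. The fourth hypothesis
is `W† (k i) = k (σ i)`; so `C (W† (k i)) = Q (σ i) = W (Q i) = W (C (k i))`, `C (W† x) = W (C x)` for
all `x` by density, put `x = C a`, apply `C`. -/
def S_Cnj : Prop := ∀ (ι : Type) (k Q : ι → E2) (σ : ι → ι) (W : E2 →L[ℂ] E2),
  (∀ a : E2, (∀ i, ⟪k i, a⟫_ℂ = 0) → a = 0) →
  (∀ i j, ⟪Q i, Q j⟫_ℂ = ⟪k j, k i⟫_ℂ) →
  (∀ i j, ⟪Q i, k j⟫_ℂ = ⟪Q j, k i⟫_ℂ) →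
  (∀ i (a : E2), ⟪k i, W a⟫_ℂ = ⟪k (σ i), a⟫_ℂ) →
  (∀ i, W (Q i) = Q (σ i)) →
  ∃ C : E2 → E2, IsConj C ∧ ∀ a, C (W a) = ContinuousLinearMap.adjoint W (C a)

/-- INT. PROOF. Substitution `u = cos² (θ/2)`, `du = - (1/2) sin θ dθ = - √(u (1-u)) dθ`, so
`∫_0^π f(cot (θ/2)) dθ = ∫_0^1 f(√(u/(1-u))) (u (1-u))^(-1/2) du`
(`MeasureTheory.integral_image_eq_integral_abs_deriv_smul` on `Set.Ioo 0 π`, image `Set.Ioo 0 1`).
With `f = cos (A log ·) = Re exp (i A log ·)`: `= Re ∫_0^1 u^(iA/2 - 1/2) (1-u)^(-iA/2 - 1/2) du =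
Re betaIntegral (1/2 + iA/2) (1/2 - iA/2)`, and `Complex.Gamma_mul_Gamma_eq_betaIntegral`,
`Complex.Gamma_mul_Gamma_one_sub`: `= π / sin (π (1/2 + iA/2)) = π / cos (iπA/2) = π / cosh (πA/2)`. -/
def S_Int : Prop := ∀ A : ℝ,
  ∫ θ in (0 : ℝ)..π, Real.cos (A * Real.log (Real.cos (θ / 2) / Real.sin (θ / 2))) =
    π / Real.cosh (π * A / 2)

/-- LBD. `L` on the disk and its boundary values. PROOF. (1) `Re (1 ± w) > 0`. (2) the arguments of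
`1 + w` and `1 - w` differ by less than `π/2`: `(1 + w) / (1 - w)` has positive real part and
`L w = log ((1+w)/(1-w))` (both arguments are in `(-π/2, π/2)`, so the difference is in `(-π, π)` and
`exp (L w) = (1+w)/(1-w)`), `|Im (L w)| = |arg ((1+w)/(1-w))| < π/2`
(`Complex.abs_arg_lt_pi_div_two_iff`). Then `‖sin (γ L)‖ ≤ cosh (γ Im L) ≤ cosh (πγ/2)`
(`‖sin (x+iy)‖ ≤ cosh y`). (3) `L (-w) = - L w` trivial. (4) for `0 < θ < π`: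
`1 + e^{iθ} = 2 cos (θ/2) e^{iθ/2}`, `1 - e^{iθ} = 2 sin (θ/2) e^{i(θ/2 - π/2)}`, so
`L (e^{iθ}) = log (cos (θ/2) / sin (θ/2)) + iπ/2`. (5) `L (conj w) = conj (L w)` when
`Re (1 ± w) > 0`. (6) continuity of `Complex.log` on the slit plane: `L (r e^{iθ}) → L (e^{iθ})` as
`r → 1`, for `θ ∈ (0, 2π)`, `θ ≠ π` (`Re (1 ± e^{iθ}) > 0`). -/
def S_Lbd : Prop :=
  DifferentiableOn ℂ L (Metric.ball 0 1) ∧
  (∀ (γ : ℝ) (w : ℂ), ‖w‖ < 1 → ‖Complex.sin (γ * L w)‖ ≤ Real.cosh (π * γ / 2)) ∧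
  (∀ w : ℂ, L (-w) = - L w) ∧
  (∀ θ : ℝ, 0 < θ → θ < π → L (Complex.exp (θ * Complex.I)) =
    ((Real.log (Real.cos (θ / 2) / Real.sin (θ / 2)) : ℝ) : ℂ) + (π / 2 : ℝ) * Complex.I) ∧
  (∀ θ : ℝ, 0 < θ → θ < π → L (Complex.exp (((2 * π - θ : ℝ) : ℂ) * Complex.I)) =
    ((Real.log (Real.cos (θ / 2) / Real.sin (θ / 2)) : ℝ) : ℂ) - (π / 2 : ℝ) * Complex.I) ∧
  (∀ θ : ℝ, 0 < θ → θ < 2 * π → θ ≠ π →
    Filter.Tendsto (fun r : ℝ => L (r * Complex.exp (θ * Complex.I))) (𝓝[<] 1)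
      (𝓝 (L (Complex.exp (θ * Complex.I))))) ∧
  (∀ q : ℝ, 0 < q → q < 1 → L (q : ℂ) = (ell q : ℂ))

/-- COEF. uses S_Lbd. PROOF. `f w = sin (γ L w)` is holomorphic on the disk and odd; Taylor series
`∑ c n w^n`; `f w = (f w - f (-w)) / 2 = ∑ c n (1 - (-1)^n)/2 w^n`, only odd `n` contribute
(`Function.Injective.hasSum_iff` for `k ↦ 2 k + 1`), `b k = c (2k+1)`. -/
def S_Coef : Prop := ∀ γ : ℝ, ∃ b : ℕ → ℂ, ∀ w : ℂ, ‖w‖ < 1 →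
  HasSum (fun k => b k * w ^ (2 * k + 1)) (Complex.sin (γ * L w))

/-- BDRY. Parseval on the unit circle for bounded functions. uses S_Pars. PROOF. `f`, `g` are continuous
on the disk. (1) For `f = g`: `∑_{n<N} ‖c n‖² r^(2n) ≤ B²` by `S_Pars`, `r → 1`: `∑ ‖c n‖² < ∞`; same for
`d`. (2) as `r → 1-`: the series of `S_Pars` tends to `∑ conj (c n) d n`
(`tendsto_tsum_of_dominated_convergence`, bound `‖c n‖ ‖d n‖`), the integral tends to the integral of the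
limits (`intervalIntegral.tendsto_integral_filter_of_dominated_convergence`, bound `B²`; the points
`0, π, 2π` are a null set). -/
def S_Bdry : Prop := ∀ (c d : ℕ → ℂ) (f g : ℂ → ℂ) (F G : ℝ → ℂ) (B : ℝ),
  (∀ z : ℂ, ‖z‖ < 1 → HasSum (fun n => c n * z ^ n) (f z)) →
  (∀ z : ℂ, ‖z‖ < 1 → HasSum (fun n => d n * z ^ n) (g z)) →
  (∀ z : ℂ, ‖z‖ < 1 → ‖f z‖ ≤ B) → (∀ z : ℂ, ‖z‖ < 1 → ‖g z‖ ≤ B) →
  (∀ θ : ℝ, 0 < θ → θ < 2 * π → θ ≠ π →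
    Filter.Tendsto (fun r : ℝ => f (r * Complex.exp (θ * Complex.I))) (𝓝[<] 1) (𝓝 (F θ))) →
  (∀ θ : ℝ, 0 < θ → θ < 2 * π → θ ≠ π →
    Filter.Tendsto (fun r : ℝ => g (r * Complex.exp (θ * Complex.I))) (𝓝[<] 1) (𝓝 (G θ))) →
  HasSum (fun n => starRingEnd ℂ (c n) * d n)
    (((2 * π : ℝ) : ℂ)⁻¹ * ∫ θ in (0 : ℝ)..(2 * π), starRingEnd ℂ (F θ) * G θ)

/-- BINT. uses S_Int, S_Lbd. PROOF. Split at `π`; on `(π, 2π)` substitute `θ ↦ 2π - θ`. With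
`x = log (cot (θ/2))`, `0 < θ < π`, the first integrand is `conj (sin (γ(x + iπ/2))) sin (δ(x + iπ/2))
= sin (γ(x - iπ/2)) sin (δ(x + iπ/2)) = (1/2) [cos ((γ-δ)x - i(π/2)(γ+δ)) - cos ((γ+δ)x -
i(π/2)(γ-δ))]`, the second one is its complex conjugate. `Re cos (u - iv) = cos u cosh v`. So the left
side is `(2π)⁻¹ ∫_0^π [cos ((γ-δ)x) cosh (π(γ+δ)/2) - cos ((γ+δ)x) cosh (π(γ-δ)/2)] dθ
= (1/2) [cosh (π(γ+δ)/2) / cosh (π(γ-δ)/2) - cosh (π(γ-δ)/2) / cosh (π(γ+δ)/2)]` by `S_Int`, and this is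
`GG γ δ`: with `a = π(γ+δ)/2`, `b = π(γ-δ)/2`: `cosh² a - cosh² b = sinh (a+b) sinh (a-b)`,
`2 cosh a cosh b = cosh (a+b) + cosh (a-b)`. (All integrands are bounded and measurable, so
integrable.) -/
def S_Bint : Prop := ∀ γ δ : ℝ,
  ((2 * π : ℝ) : ℂ)⁻¹ * ∫ θ in (0 : ℝ)..(2 * π),
    starRingEnd ℂ (Complex.sin (γ * L (Complex.exp (θ * Complex.I)))) *
      Complex.sin (δ * L (Complex.exp (θ * Complex.I))) = (GG γ δ : ℂ)

/-- GRAM. uses S_Lbd, S_Bdry, S_Bint. PROOF. The functions `sin (γ L)`, `sin (δ L)` with Taylor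
coefficients `c (2k+1) = b k`, `c (2k) = 0`; `S_Bdry` with `B = max (cosh (πγ/2)) (cosh (πδ/2))` and
`F θ = sin (γ L (e^{iθ}))`, value: `S_Bint`. Back to `k`: `Function.Injective.hasSum_iff`. -/
def S_Gram : Prop := ∀ (γ δ : ℝ) (b c : ℕ → ℂ),
  (∀ w : ℂ, ‖w‖ < 1 → HasSum (fun k => b k * w ^ (2 * k + 1)) (Complex.sin (γ * L w))) →
  (∀ w : ℂ, ‖w‖ < 1 → HasSum (fun k => c k * w ^ (2 * k + 1)) (Complex.sin (δ * L w))) →
  HasSum (fun k => starRingEnd ℂ (b k) * c k) (GG γ δ : ℂ)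

/-- SYM. The symbols. PROOF. For `‖z‖ < 1`: `Re (1 - z) > 0`, `rt z ^ 2 = 1 - z`, `Re (rt z) > 0`
(`|Im (log (1 - z))| < π/2`), so `‖1 + rt z‖ > 1`. `‖phi z‖ ≤ ‖z‖`. Also
`phi z = (1 - rt z) / (1 + rt z)` because `z = (1 - rt z)(1 + rt z)`. Not linear fractional: values
`rt 0 = 1`, `rt (3/4) = 1/2`, `rt (8/9) = 1/3`, `rt (15/16) = 1/4` (real, positive, square correct), so
`phi 0 = 0`, `phi (3/4) = 1/3`, `phi (8/9) = 1/2`, `phi (15/16) = 3/5`. If `c z + d ≠ 0` and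
`phi z = (a z + b)/(c z + d)` on the disk: `b = 0`, `9a = 3c + 4d`, `16 a = 8c + 9d`, `25 a = 15 c +
16 d`, so `a = c = d = 0`: contradiction. -/
def S_Sym : Prop :=
  DifferentiableOn ℂ psi (Metric.ball 0 1) ∧ DifferentiableOn ℂ phi (Metric.ball 0 1) ∧
  (∀ z : ℂ, ‖z‖ < 1 → ‖psi z‖ ≤ 1) ∧ (∀ z : ℂ, ‖z‖ < 1 → ‖phi z‖ < 1) ∧ phi 0 = 0 ∧
  psi 0 ≠ 0 ∧ phi (3 / 4) = 1 / 3 ∧
  (¬ ∃ a b c d : ℂ, a * d - b * c ≠ 0 ∧ ∀ z : ℂ, ‖z‖ < 1 →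
    c * z + d ≠ 0 ∧ phi z = (a * z + b) / (c * z + d))

/-- REAL. PROOF. Real `q ∈ (0,1)`, `r = √(1 - q²) ∈ (0,1)`. `rt (q²) = r` (`Complex.ofReal_log`,
`Real.exp` of half the logarithm). So `psi (q²) = 1/(1+r)`, `phi (q²) = q²/(1+r)²`. `Ph q < q < 1`.
`(1 + Ph q)/(1 - Ph q) = (1+r+q)/(1+r-q)`, its square is `(1+q)/(1-q)` (`r² = (1-q)(1+q)`), so
`2 ell (Ph q) = ell q`. `GG`: `sinh (ell q) = 2q/(1-q²)`, `cosh (ell q) = (1+q²)/(1-q²)`. -/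
def S_Real : Prop := ∀ q : ℝ, 0 < q → q < 1 →
  0 < Ph q ∧ Ph q < 1 ∧ phi ((q : ℂ) ^ 2) = ((Ph q : ℝ) : ℂ) ^ 2 ∧
  (q : ℂ) * psi ((q : ℂ) ^ 2) = ((Ph q : ℝ) : ℂ) ∧ ell (Ph q) = ell q / 2 ∧
  ∀ p : ℝ, 0 < p → p < 1 → GG (ell q / π) (ell p / π) = 2 * (q * p) / (1 - (q * p) ^ 2)

/-- MAIN: the theorem. uses S_Ev, S_Mem, S_Wop, S_Cnj, S_Lbd, S_Coef, S_Gram, S_Sym, S_Real. PROOF.
`ι = (0, 1)`, `k q = (q^(2k+1))_k`, `⟪k q, a⟫ = q ev a (q²)`; `Q q = (1/√2) b (ell q / π)`,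
`⟪k p, Q q⟫ = (1/√2) sin (ell q ell p / π)` (real, symmetric), `⟪Q q, Q p⟫ = (1/2) GG = qp/(1 - q²p²) =
⟪k p, k q⟫`; `σ = Ph`; `⟪k q, W a⟫ = q psi (q²) ev a (phi (q²)) = ⟪k (Ph q), a⟫`;
`⟪k p, W (Q q)⟫ = ⟪k (Ph p), Q q⟫ = (1/√2) sin (ell q ell p / (2π)) = ⟪k p, Q (Ph q)⟫`. -/
def S_Main : Prop :=
  (∀ f : ℂ → ℂ, MemH2 f ↔ ∃ a : E2, ∀ z ∈ Metric.ball (0 : ℂ) 1, f z = ev a z) ∧
  (∀ a : E2, IsLUB (mean (ev a) '' Set.Ioo 0 1) (‖a‖ ^ 2)) ∧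
  ∃ (ψ φ : ℂ → ℂ) (W : E2 →L[ℂ] E2) (C : E2 → E2),
    DifferentiableOn ℂ ψ (Metric.ball 0 1) ∧ DifferentiableOn ℂ φ (Metric.ball 0 1) ∧
    (∀ z ∈ Metric.ball (0 : ℂ) 1, φ z ∈ Metric.ball (0 : ℂ) 1) ∧
    (∀ (a : E2), ∀ z ∈ Metric.ball (0 : ℂ) 1, ev (W a) z = ψ z * ev a (φ z)) ∧
    IsConj C ∧ (∀ a : E2, C (W a) = ContinuousLinearMap.adjoint W (C a)) ∧
    (∃ z ∈ Metric.ball (0 : ℂ) 1, ψ z ≠ 0) ∧
    (∃ z ∈ Metric.ball (0 : ℂ) 1, ∃ w ∈ Metric.ball (0 : ℂ) 1, φ z ≠ φ w) ∧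
    ¬ ∃ a b c d : ℂ, a * d - b * c ≠ 0 ∧ ∀ z ∈ Metric.ball (0 : ℂ) 1,
      c * z + d ≠ 0 ∧ φ z = (a * z + b) / (c * z + d)

end Pool.Agent.MPd61
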