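import Pool.Agent.Lib.MP_d61ac0_an.Spec

/-!
# MP_d61ac0_an: the symbols (statement S_Sym)
-/

set_option autoImplicit false

namespace Pool.Agent.MPd61

open scoped Real

private theorem SymP_re_pos (z : ℂ) (hz : ‖z‖ < 1) : 0 < (1 - z).re := by
  have h1 : z.re ≤ ‖z‖ := Complex.re_le_norm z
  simp only [Complex.sub_re, Complex.one_re]
  linarith

private theorem SymP_rt_re (z : ℂ) (hz : ‖z‖ < 1) : 0 < (rt z).re := by
  unfold rt
  rw [Complex.exp_re]
  apply mul_pos (Real.exp_pos _)
  apply Real.cos_pos_of_mem_Ioo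
  have h1 := SymP_re_pos z hz
  have h2 : |(Complex.log (1 - z)).im| < π / 2 := by
    rw [Complex.log_im, Complex.abs_arg_lt_pi_div_two_iff]
    left
    exact h1
  have h3 : (Complex.log (1 - z) / 2).im = (Complex.log (1 - z)).im / 2 := by
    simp
  rw [h3]
  rw [abs_lt] at h2
  constructor <;> linarith [Real.pi_pos]

private theorem SymP_norm (z : ℂ) (hz : ‖z‖ < 1) : 1 < ‖1 + rt z‖ := by
  have h1 := SymP_rt_re z hz
  have h2 : (1 + rt z).re ≤ ‖1 + rt z‖ := Complex.re_le_norm _
  simp only [Complex.add_re, Complex.one_re] at h2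
  linarith

private theorem SymP_ne (z : ℂ) (hz : ‖z‖ < 1) : 1 + rt z ≠ 0 := by
  intro h
  have h1 := SymP_norm z hz
  rw [h, norm_zero] at h1
  linarith

private theorem SymP_rt_diff : DifferentiableOn ℂ rt (Metric.ball 0 1) := by
  unfold rt
  apply DifferentiableOn.cexp
  apply DifferentiableOn.div_const
  apply DifferentiableOn.clog
  · exact (differentiableOn_const _).sub differentiableOn_id
  · intro z hz
    left
    exact SymP_re_pos z (by simpa using hz)

private theorem SymP_rt_val (s : ℝ) (hs : 0 < s) : rt (1 - (s : ℂ) ^ 2) = s := by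
  unfold rt
  have h1 : (1 : ℂ) - (1 - (s : ℂ) ^ 2) = ((s ^ 2 : ℝ) : ℂ) := by push_cast; ring
  rw [h1, ← Complex.ofReal_log (by positivity), Real.log_pow]
  have h2 : ((((2 : ℕ) : ℝ) * Real.log s : ℝ) : ℂ) / 2 = ((Real.log s : ℝ) : ℂ) := by
    push_cast
    ring
  rw [h2, ← Complex.ofReal_exp, Real.exp_log hs]

private theorem SymP_phi (s : ℝ) (hs : 0 < s) (z w : ℂ) (hz : z = 1 - (s : ℂ) ^ 2)
    (hw : w = (1 - (s : ℂ) ^ 2) / (1 + (s : ℂ)) ^ 2) : phi z = w := by
  unfold phi
  rw [hz, SymP_rt_val s hs, hw]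

/-- SYM: the symbols. -/
theorem tSym : S_Sym := by
  have hphi0 : phi 0 = 0 := by
    unfold phi
    simp
  have h34 : phi (3 / 4) = 1 / 3 :=
    SymP_phi (1 / 2) (by norm_num) _ _ (by push_cast; norm_num) (by push_cast; norm_num)
  have h89 : phi (8 / 9) = 1 / 2 :=
    SymP_phi (1 / 3) (by norm_num) _ _ (by push_cast; norm_num) (by push_cast; norm_num)
  have h1516 : phi (15 / 16) = 3 / 5 :=
    SymP_phi (1 / 4) (by norm_num) _ _ (by push_cast; norm_num) (by push_cast; norm_num)
  refine ⟨?_, ?_, ?_, ?_, hphi0, ?_, h34, ?_⟩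
  · unfold psi
    apply DifferentiableOn.inv
    · exact (differentiableOn_const _).add SymP_rt_diff
    · intro z hz
      exact SymP_ne z (by simpa using hz)
  · unfold phi
    apply DifferentiableOn.div differentiableOn_id
    · exact ((differentiableOn_const _).add SymP_rt_diff).pow 2
    · intro z hz
      exact pow_ne_zero 2 (SymP_ne z (by simpa using hz))
  · intro z hz
    unfold psi
    rw [norm_inv]
    exact inv_le_one_of_one_le₀ (SymP_norm z hz).le
  · intro z hz
    unfold phi
    rw [norm_div, norm_pow]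
    have h1 := SymP_norm z hz
    have h2 : 1 ≤ ‖1 + rt z‖ ^ 2 := one_le_pow₀ h1.le
    rw [div_lt_iff₀ (by linarith)]
    linarith
  · unfold psi
    exact inv_ne_zero (SymP_ne 0 (by simp))
  · rintro ⟨a, b, c, d, hne, h⟩
    have e0 := h 0 (by simp)
    have e1 := h (3 / 4) (by norm_num)
    have e2 := h (8 / 9) (by norm_num)
    have e3 := h (15 / 16) (by norm_num)
    rw [hphi0, eq_div_iff e0.1] at e0
    rw [h34, eq_div_iff e1.1] at e1
    rw [h89, eq_div_iff e2.1] at e2
    rw [h1516, eq_div_iff e3.1] at e3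
    have f0 := e0.2
    have f1 := e1.2
    have f2 := e2.2
    have f3 := e3.2
    have hb : b = 0 := by linear_combination (-1 : ℂ) * f0
    have ha : a = 0 := by
      rw [hb] at f1 f2 f3
      linear_combination (21 : ℂ) * f1 - (54 : ℂ) * f2 + (100 / 3 : ℂ) * f3
    apply hne
    rw [ha, hb]
    ring

end Pool.Agent.MPd61
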