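import Pool.Agent.Lib.MP_d61ac0_an.Spec

/-!
# MP_d61ac0_an, WOP: bounded weighted composition operators (Littlewood)
-/

set_option autoImplicit false

namespace Pool.Agent.MPd61

open scoped Real InnerProductSpace Topology
open Filter Set

namespace WopB

theorem circ_mem {r : ℝ} (hr0 : 0 < r) (θ : ℝ) :
    ‖(r : ℂ) * Complex.exp (θ * Complex.I)‖ = r := by
  rw [norm_mul, Complex.norm_exp_ofReal_mul_I, mul_one, Complex.norm_real, Real.norm_eq_abs,
    abs_of_pos hr0]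

theorem circ_cont {f : ℂ → ℂ} (hf : DifferentiableOn ℂ f (Metric.ball 0 1)) {r : ℝ} (hr0 : 0 < r)
    (hr1 : r < 1) : Continuous fun θ : ℝ => f (r * Complex.exp (θ * Complex.I)) := by
  refine hf.continuousOn.comp_continuous (by fun_prop) fun θ => ?_
  rw [mem_ball_zero_iff, circ_mem hr0]
  exact hr1

theorem mean_mono {f g : ℂ → ℂ} (hf : DifferentiableOn ℂ f (Metric.ball 0 1))
    (hg : DifferentiableOn ℂ g (Metric.ball 0 1)) {r : ℝ} (hr0 : 0 < r) (hr1 : r < 1)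
    (h : ∀ z : ℂ, ‖z‖ < 1 → ‖f z‖ ≤ ‖g z‖) : mean f r ≤ mean g r := by
  unfold mean
  refine mul_le_mul_of_nonneg_left ?_ (by positivity)
  refine intervalIntegral.integral_mono_on (by positivity)
    (((circ_cont hf hr0 hr1).norm.pow 2).intervalIntegrable _ _)
    (((circ_cont hg hr0 hr1).norm.pow 2).intervalIntegrable _ _) fun θ _ => ?_
  have := h (r * Complex.exp (θ * Complex.I)) (by rw [circ_mem hr0]; exact hr1)
  gcongr

theorem poly_diff {φ : ℂ → ℂ} (hφ : DifferentiableOn ℂ φ (Metric.ball 0 1)) (a : ℕ → ℂ) (N : ℕ) :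
    DifferentiableOn ℂ (fun z => ∑ k ∈ Finset.range N, a k * φ z ^ k) (Metric.ball 0 1) := by
  refine DifferentiableOn.fun_sum fun k _ => ?_
  exact (hφ.pow k).const_mul (a k)

/-- (A) -/
theorem poly_bound (h2 : S_Mem) {φ : ℂ → ℂ} (hφ : DifferentiableOn ℂ φ (Metric.ball 0 1))
    (hφ1 : ∀ z : ℂ, ‖z‖ < 1 → ‖φ z‖ < 1) (hφ0 : φ 0 = 0) {r : ℝ} (hr0 : 0 < r) (hr1 : r < 1) :
    ∀ (N : ℕ) (a : ℕ → ℂ), mean (fun z => ∑ k ∈ Finset.range N, a k * φ z ^ k) r ≤
      ∑ k ∈ Finset.range N, ‖a k‖ ^ 2 := by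
  intro N
  induction N with
  | zero =>
    intro a
    simp [mean]
  | succ N ih =>
    intro a
    have e1 := h2.2.2 _ (poly_diff hφ a (N + 1)) r hr0 hr1
    rw [e1]
    have e2 : ∀ z, ∑ k ∈ Finset.range (N + 1), a k * φ z ^ k =
        φ z * (∑ k ∈ Finset.range N, a (k + 1) * φ z ^ k) + a 0 := by
      intro z
      rw [Finset.sum_range_succ', pow_zero, mul_one, Finset.mul_sum]
      congr 1
      refine Finset.sum_congr rfl fun k _ => ?_
      ring
    have e3 : ∑ k ∈ Finset.range (N + 1), a k * φ 0 ^ k = a 0 := by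
      rw [e2, hφ0, zero_mul, zero_add]
    rw [e3, Finset.sum_range_succ', add_comm]
    refine add_le_add ?_ le_rfl
    have e4 : (fun z => ∑ k ∈ Finset.range (N + 1), a k * φ z ^ k - a 0) =
        fun z => φ z * ∑ k ∈ Finset.range N, a (k + 1) * φ z ^ k := by
      funext z
      rw [e2, add_sub_cancel_right]
    rw [e4]
    refine (mean_mono (hφ.mul (poly_diff hφ (fun k => a (k + 1)) N))
      (poly_diff hφ (fun k => a (k + 1)) N) hr0 hr1 fun z hz => ?_).trans (ih fun k => a (k + 1))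
    rw [Pi.mul_apply, norm_mul]
    exact mul_le_of_le_one_left (norm_nonneg _) (hφ1 z hz).le

/-- (B) -/
theorem comp_bound (h1 : S_Ev) (h2 : S_Mem) {φ : ℂ → ℂ}
    (hφ : DifferentiableOn ℂ φ (Metric.ball 0 1))
    (hφ1 : ∀ z : ℂ, ‖z‖ < 1 → ‖φ z‖ < 1) (hφ0 : φ 0 = 0) {r : ℝ} (hr0 : 0 < r) (hr1 : r < 1)
    (a : E2) : mean (fun z => ev a (φ z)) r ≤ ‖a‖ ^ 2 := by
  have hsch : ∀ z : ℂ, ‖z‖ < 1 → ‖φ z‖ ≤ ‖z‖ := fun z hz =>
    Complex.norm_le_norm_of_mapsTo_ball hφ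
      (fun w hw => by
        rw [mem_closedBall_zero_iff]
        exact (hφ1 w (mem_ball_zero_iff.1 hw)).le) hφ0 hz
  have hn : ∀ n, mean (fun z => ∑ k ∈ Finset.range n, a k * φ z ^ k) r ≤ ‖a‖ ^ 2 := fun n =>
    (poly_bound h2 hφ hφ1 hφ0 hr0 hr1 n a).trans
      (sum_le_hasSum _ (fun _ _ => by positivity) (h1.2.2.2.1 a))
  refine le_of_tendsto' (x := (atTop : Filter ℕ)) ?_ hn
  unfold mean
  refine Tendsto.const_mul _ ?_
  have hsum : Summable fun k => ‖a k‖ * r ^ k := by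
    have h := (h1.1 a (r : ℂ) (by
      rw [Complex.norm_real, Real.norm_eq_abs, abs_of_pos hr0]; exact hr1)).summable.norm
    refine h.congr fun k => ?_
    rw [norm_mul, norm_pow, Complex.norm_real, Real.norm_eq_abs, abs_of_pos hr0]
  refine intervalIntegral.tendsto_integral_filter_of_dominated_convergence
    (fun _ => (∑' k, ‖a k‖ * r ^ k) ^ 2) ?_ ?_ ?_ ?_
  · refine Eventually.of_forall fun n => ?_
    exact ((circ_cont (poly_diff hφ (fun k => a k) n) hr0 hr1).norm.pow 2).aestronglyMeasurable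
  · refine Eventually.of_forall fun n => Eventually.of_forall fun θ _ => ?_
    rw [Real.norm_eq_abs, abs_of_nonneg (by positivity)]
    refine pow_le_pow_left₀ (norm_nonneg _) ?_ 2
    refine (norm_sum_le _ _).trans ((Finset.sum_le_sum fun k _ => ?_).trans
      (hsum.sum_le_tsum (Finset.range n) fun _ _ => by positivity))
    rw [norm_mul, norm_pow]
    refine mul_le_mul_of_nonneg_left (pow_le_pow_left₀ (norm_nonneg _) ?_ k) (norm_nonneg _)
    refine (hsch _ ?_).trans (circ_mem hr0 θ).le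
    rw [circ_mem hr0]
    exact hr1
  · exact intervalIntegrable_const
  · refine Eventually.of_forall fun θ _ => ?_
    have hlt : ‖φ (r * Complex.exp (θ * Complex.I))‖ < 1 := by
      refine hφ1 _ ?_
      rw [circ_mem hr0]
      exact hr1
    exact ((h1.1 a _ hlt).tendsto_sum_nat.norm).pow 2

theorem ev_add (h1 : S_Ev) (a b : E2) {z : ℂ} (hz : ‖z‖ < 1) : ev (a + b) z = ev a z + ev b z := by
  refine (h1.1 (a + b) z hz).unique ?_
  refine ((h1.1 a z hz).add (h1.1 b z hz)).congr_fun fun n => ?_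
  rw [lp.coeFn_add, Pi.add_apply]
  ring

theorem ev_smul (h1 : S_Ev) (c : ℂ) (a : E2) {z : ℂ} (hz : ‖z‖ < 1) :
    ev (c • a) z = c * ev a z := by
  refine (h1.1 (c • a) z hz).unique ?_
  refine ((h1.1 a z hz).mul_left c).congr_fun fun n => ?_
  rw [lp.coeFn_smul, Pi.smul_apply, smul_eq_mul]
  ring

theorem ev_inj (h1 : S_Ev) {a b : E2} (h : ∀ z : ℂ, ‖z‖ < 1 → ev a z = ev b z) : a = b := by
  rw [← sub_eq_zero]
  refine h1.2.2.1 _ fun t ht0 ht1 => ?_
  have ht : ‖(t : ℂ)‖ < 1 := by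
    rw [Complex.norm_real, Real.norm_eq_abs, abs_of_pos ht0]
    exact ht1
  have e1 := ev_add h1 a ((-1 : ℂ) • b) ht
  rw [ev_smul h1 _ _ ht, h _ ht, neg_one_mul, add_neg_cancel, neg_one_smul, ← sub_eq_add_neg] at e1
  exact e1

end WopB

open WopB in
/-- WOP -/
theorem tWopB (h1 : S_Ev) (h2 : S_Mem) : S_Wop := by
  intro ψ φ hψ hφ hψ1 hφ1 hφ0
  have hmaps : MapsTo φ (Metric.ball 0 1) (Metric.ball 0 1) := fun z hz =>
    mem_ball_zero_iff.2 (hφ1 z (mem_ball_zero_iff.1 hz))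
  have key : ∀ a : E2, ∃ b : E2, (∀ z : ℂ, ‖z‖ < 1 → ev b z = ψ z * ev a (φ z)) ∧ ‖b‖ ≤ ‖a‖ := by
    intro a
    have hd1 : DifferentiableOn ℂ (fun z => ev a (φ z)) (Metric.ball 0 1) :=
      (h1.2.1 a).comp hφ hmaps
    have hd : DifferentiableOn ℂ (fun z => ψ z * ev a (φ z)) (Metric.ball 0 1) := hψ.mul hd1
    have hb : ∀ r : ℝ, 0 < r → r < 1 → mean (fun z => ψ z * ev a (φ z)) r ≤ ‖a‖ ^ 2 := by
      intro r hr0 hr1
      refine (mean_mono hd hd1 hr0 hr1 fun z hz => ?_).trans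
        (comp_bound h1 h2 hφ hφ1 hφ0 hr0 hr1 a)
      rw [norm_mul]
      exact mul_le_of_le_one_left (norm_nonneg _) (hψ1 z hz)
    obtain ⟨b, hb'⟩ := (h2.1 _).1 ⟨hd, _, hb⟩
    refine ⟨b, fun z hz => (hb' z (mem_ball_zero_iff.2 hz)).symm, ?_⟩
    refine le_of_sq_le_sq ?_ (norm_nonneg _)
    refine (h2.2.1 b).2 ?_
    rintro _ ⟨r, ⟨hr0, hr1⟩, rfl⟩
    refine le_of_eq_of_le ?_ (hb r hr0 hr1)
    unfold mean
    congr 1
    refine intervalIntegral.integral_congr fun θ _ => ?_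
    show ‖ev b _‖ ^ 2 = ‖ψ _ * ev a (φ _)‖ ^ 2
    rw [hb' _ (mem_ball_zero_iff.2 (by rw [circ_mem hr0]; exact hr1))]
  choose W0 hW0 hWn using key
  refine ⟨LinearMap.mkContinuous
    { toFun := W0
      map_add' := fun a b => ?_
      map_smul' := fun c a => ?_ } 1 fun a => ?_, fun a z hz => hW0 a z hz⟩
  · refine ev_inj h1 fun z hz => ?_
    rw [ev_add h1 _ _ hz, hW0 _ z hz, hW0 _ z hz, hW0 _ z hz, ev_add h1 _ _ (hφ1 z hz), mul_add]
  · refine ev_inj h1 fun z hz => ?_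
    rw [RingHom.id_apply, ev_smul h1 _ _ hz, hW0 _ z hz, hW0 _ z hz, ev_smul h1 _ _ (hφ1 z hz)]
    ring
  · rw [one_mul]
    exact hWn a

end Pool.Agent.MPd61
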